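import Mathlib
import Pool.Agent.H785R2.ABC.Defs
import Pool.Agent.Y913.Nb.Ops

/-!
# Dusty and solid integers

An integer is dusty if it is divisible by a high power of an integer in a short window; an integer
with a small radical which is not dusty is a product of powers of few bounded integers.
-/

set_option autoImplicit false

namespace Pool.Agent.N745.T1

open Finset Pool.Agent.H785R2.ABC Pool.Agent.Y913.Nb

/-- `m` is divisible by the `M`-th power of an integer in `(Y ^ (γ / 2), Y ^ γ]` -/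
def Dusty (Y γ : ℝ) (M m : ℕ) : Prop :=
  ∃ ρ : ℕ, ρ ^ M ∣ m ∧ Y ^ (γ / 2) < ρ ∧ (ρ : ℝ) ≤ Y ^ γ

/-- dustiness at a lower level -/
theorem Dusty.mono {Y γ γ' : ℝ} {M M' m : ℕ} (hY : 1 ≤ Y) (hγ' : 0 < γ') (hγγ : γ' ≤ γ / 2)
    (hM : (M : ℝ) * (γ / γ' + 1) ≤ M') (h : Dusty Y γ' M' m) : Dusty Y γ M m := by
  classical
  obtain ⟨ρ, hd, h1, h2⟩ := h
  have hY0 : (0 : ℝ) < Y := by linarith
  have hYlt : 1 < Y := by
    by_contra hc
    have hY1 : Y = 1 := le_antisymm (not_lt.1 hc) hY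
    rw [hY1, Real.one_rpow] at h1 h2
    linarith
  have hρ1 : (1 : ℝ) < ρ := lt_of_le_of_lt (Real.one_le_rpow hY (by positivity)) h1
  have hρ1' : 1 < ρ := by exact_mod_cast hρ1
  have hex : ∃ t : ℕ, Y ^ (γ / 2) < (ρ : ℝ) ^ t := pow_unbounded_of_one_lt _ hρ1
  obtain ⟨t, ht⟩ : ∃ t, t = Nat.find hex := ⟨_, rfl⟩
  have ht1 : Y ^ (γ / 2) < (ρ : ℝ) ^ t := ht ▸ Nat.find_spec hex
  have ht0 : t ≠ 0 := by
    rintro rfl
    rw [pow_zero] at ht1
    have : (1 : ℝ) ≤ Y ^ (γ / 2) := Real.one_le_rpow hY (by linarith)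
    linarith
  obtain ⟨u, rfl⟩ : ∃ u, t = u + 1 := ⟨t - 1, by omega⟩
  have hu : (ρ : ℝ) ^ u ≤ Y ^ (γ / 2) := by
    have := Nat.find_min hex (m := u) (by omega)
    exact not_lt.1 this
  have huM : (u : ℝ) ≤ γ / γ' := by
    have h3 : Y ^ ((γ' / 2) * u) ≤ Y ^ (γ / 2) := by
      rw [Real.rpow_mul hY0.le, Real.rpow_natCast]
      exact (pow_le_pow_left₀ (by positivity) h1.le u).trans hu
    have h4 : (γ' / 2) * u ≤ γ / 2 := (Real.rpow_le_rpow_left_iff hYlt).1 h3
    rw [le_div_iff₀ hγ']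
    linarith
  refine ⟨ρ ^ (u + 1), ?_, ?_, ?_⟩
  · rw [← pow_mul]
    refine (pow_dvd_pow ρ ?_).trans hd
    have h3 : ((u + 1 : ℕ) : ℝ) * M ≤ M' := by
      refine le_trans ?_ hM
      rw [mul_comm]
      apply mul_le_mul_of_nonneg_left _ (Nat.cast_nonneg _)
      push_cast
      linarith
    exact_mod_cast h3
  · push_cast
    exact ht1
  · push_cast
    calc (ρ : ℝ) ^ (u + 1) = (ρ : ℝ) ^ u * ρ := pow_succ _ _
      _ ≤ Y ^ (γ / 2) * Y ^ γ' := mul_le_mul hu h2 (by positivity) (by positivity)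
      _ = Y ^ (γ / 2 + γ') := (Real.rpow_add hY0 _ _).symm
      _ ≤ Y ^ γ := Real.rpow_le_rpow_of_exponent_le hY (by linarith)

/-- an integer all of whose prime factors are small has a divisor in every short window -/
theorem exists_dvd_window {B : ℝ} (hB : 1 ≤ B) : ∀ g : ℕ, 0 < g →
    (∀ p ∈ g.primeFactors, (p : ℝ) ≤ B) → B < g → ∃ d, d ∣ g ∧ B < d ∧ (d : ℝ) ≤ B * B := by
  intro g
  induction g using Nat.strong_induction_on with
  | _ g ih =>
    intro hg hp hlt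
    rcases le_or_gt (g : ℝ) (B * B) with h | h
    · exact ⟨g, dvd_refl g, hlt, h⟩
    · have hg1 : 1 < g := by
        have : (1 : ℝ) < g := by linarith
        exact_mod_cast this
      obtain ⟨p, hpm⟩ := Nat.nonempty_primeFactors.mpr hg1
      have hpp := Nat.prime_of_mem_primeFactors hpm
      obtain ⟨k, rfl⟩ := Nat.dvd_of_mem_primeFactors hpm
      have hk : 0 < k := Nat.pos_of_ne_zero (by rintro rfl; simp at hg)
      have hpB := hp p hpm
      have hp0 : (0 : ℝ) < p := by exact_mod_cast hpp.pos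
      have hkB : B < k := by
        have h1 : B * B < (p : ℝ) * k := by exact_mod_cast h
        have h2 : (p : ℝ) * k ≤ B * k := mul_le_mul_of_nonneg_right hpB (by positivity)
        exact lt_of_mul_lt_mul_left (lt_of_lt_of_le h1 h2) (by linarith)
      obtain ⟨d, hd, h1, h2⟩ := ih k (by have := hpp.one_lt; nlinarith) hk
        (fun q hq => hp q (Nat.primeFactors_mono (Dvd.intro_left p rfl) (by positivity) hq)) hkB
      exact ⟨d, hd.trans (Dvd.intro_left p rfl), h1, h2⟩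

/-- **structure of solid integers** -/
theorem nb_of_not_dusty {Y γ : ℝ} (hY : 1 ≤ Y) (hγ : 0 < γ) (hγ1 : γ ≤ 1) {M n m : ℕ}
    (hM : 1 ≤ M) (hn : 2 / γ ≤ n) (hm : 0 < m) (hrad : (rad m : ℝ) ≤ Y)
    (hd : ¬ Dusty Y γ M m) : NB (n + 1) (Y ^ (2 * M)) m := by
  classical
  have hY0 : (0 : ℝ) < Y := by linarith
  obtain ⟨B, hBdef⟩ : ∃ B, B = Y ^ (γ / 2) := ⟨_, rfl⟩
  have hB1 : 1 ≤ B := by rw [hBdef]; exact Real.one_le_rpow hY (by positivity)
  have hBY : B ≤ Y := by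
    rw [hBdef]
    calc Y ^ (γ / 2) ≤ Y ^ (1 : ℝ) := Real.rpow_le_rpow_of_exponent_le hY (by linarith)
      _ = Y := Real.rpow_one Y
  set e : ℕ → ℕ := fun p => m.factorization p with he
  set S : Finset ℕ := m.primeFactors.filter fun p => (p : ℝ) ≤ B with hS
  set L : Finset ℕ := m.primeFactors.filter fun p => ¬ (p : ℝ) ≤ B with hL
  have hSp : ∀ p ∈ S, p.Prime := fun p hp => Nat.prime_of_mem_primeFactors (mem_filter.1 hp).1
  have hLp : ∀ p ∈ L, p.Prime := fun p hp => Nat.prime_of_mem_primeFactors (mem_filter.1 hp).1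
  -- the factorisation
  have hfac : (∏ p ∈ S, p ^ e p) * ∏ p ∈ L, p ^ e p = m := by
    rw [hS, hL, prod_filter_mul_prod_filter_not]
    conv_rhs => rw [← Nat.prod_factorization_pow_eq_self hm.ne']
    rw [Finsupp.prod, Nat.support_factorization]
  have hradfac : (∏ p ∈ S, p) * ∏ p ∈ L, p = rad m := by
    rw [hS, hL, prod_filter_mul_prod_filter_not]
    rfl
  have hSpos : 1 ≤ ∏ p ∈ S, p := Nat.one_le_iff_ne_zero.2
    (prod_ne_zero_iff.2 fun p hp => (hSp p hp).ne_zero)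
  have hLpos : 1 ≤ ∏ p ∈ L, p := Nat.one_le_iff_ne_zero.2
    (prod_ne_zero_iff.2 fun p hp => (hLp p hp).ne_zero)
  have hSrad : ((∏ p ∈ S, p : ℕ) : ℝ) ≤ Y := by
    refine le_trans ?_ hrad
    rw [← hradfac]
    exact_mod_cast Nat.le_mul_of_pos_right _ hLpos
  have hLrad : ((∏ p ∈ L, p : ℕ) : ℝ) ≤ Y := by
    refine le_trans ?_ hrad
    rw [← hradfac]
    exact_mod_cast Nat.le_mul_of_pos_left _ hSpos
  -- the small primes
  set g : ℕ := ∏ p ∈ S, p ^ (e p / M) with hg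
  have hg0 : 0 < g := prod_pos fun p hp => pow_pos (hSp p hp).pos _
  have hgM : g ^ M ∣ m := by
    rw [← hfac]
    refine Dvd.dvd.mul_right ?_ _
    rw [hg, ← prod_pow]
    apply prod_dvd_prod_of_dvd
    intro p _
    rw [← pow_mul]
    exact pow_dvd_pow p (Nat.div_mul_le_self _ _)
  have hgB : (g : ℝ) ≤ B := by
    by_contra hlt
    rw [not_le] at hlt
    obtain ⟨d, hdg, h1, h2⟩ := exists_dvd_window hB1 g hg0 (by
      intro q hq
      have hqp := Nat.prime_of_mem_primeFactors hq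
      have hqd := Nat.dvd_of_mem_primeFactors hq
      rw [hg, hqp.prime.dvd_finset_prod_iff] at hqd
      obtain ⟨p, hp, hqp2⟩ := hqd
      have h3 := hqp.dvd_of_dvd_pow hqp2
      rw [(Nat.prime_dvd_prime_iff_eq hqp (hSp p hp)).1 h3]
      exact (mem_filter.1 hp).2) hlt
    apply hd
    refine ⟨d, (pow_dvd_pow_of_dvd hdg M).trans hgM, hBdef ▸ h1, h2.trans (le_of_eq ?_)⟩
    rw [hBdef, ← Real.rpow_add hY0]
    congr 1
    ring
  set u : ℕ := ∏ p ∈ S, p ^ e p with hu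
  have hu0 : 0 < u := prod_pos fun p hp => pow_pos (hSp p hp).pos _
  have hule : (u : ℝ) ≤ Y ^ (2 * M) := by
    have h1 : u ≤ (g * ∏ p ∈ S, p) ^ M := by
      rw [hu, hg, ← prod_mul_distrib, ← prod_pow]
      apply prod_le_prod'
      intro p hp
      rw [← pow_succ, ← pow_mul]
      apply Nat.pow_le_pow_right (hSp p hp).pos
      have h2 := Nat.div_add_mod (e p) M
      have h3 := Nat.mod_lt (e p) (by omega : M > 0)
      nlinarith
    have h2 : ((g * ∏ p ∈ S, p : ℕ) : ℝ) ≤ Y * Y := by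
      rw [Nat.cast_mul]
      exact mul_le_mul (hgB.trans hBY) hSrad (Nat.cast_nonneg _) hY0.le
    calc (u : ℝ) ≤ (((g * ∏ p ∈ S, p) ^ M : ℕ) : ℝ) := by exact_mod_cast h1
      _ = ((g * ∏ p ∈ S, p : ℕ) : ℝ) ^ M := by push_cast; ring
      _ ≤ (Y * Y) ^ M := pow_le_pow_left₀ (Nat.cast_nonneg _) h2 M
      _ = Y ^ (2 * M) := by rw [pow_mul]; congr 1; ring
  have hY2M : Y ≤ Y ^ (2 * M) := by
    calc Y = Y ^ 1 := (pow_one Y).symm
      _ ≤ Y ^ (2 * M) := pow_le_pow_right₀ hY (by omega)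
  have h1Y : (1 : ℝ) ≤ Y ^ (2 * M) := one_le_pow₀ hY
  -- the large primes
  have hLcard : L.card ≤ n := by
    rcases Nat.eq_zero_or_pos L.card with h0 | h0
    · omega
    have h1 : B ^ L.card < ((∏ p ∈ L, p : ℕ) : ℝ) := by
      push_cast
      rw [← prod_const]
      apply prod_lt_prod_of_nonempty
      · intro p _; linarith
      · intro p hp
        exact not_le.1 (mem_filter.1 hp).2
      · exact card_pos.1 h0
    have h2 : Y ^ (γ / 2 * L.card) < Y ^ (1 : ℝ) := by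
      rw [Real.rpow_mul hY0.le, Real.rpow_natCast, Real.rpow_one, ← hBdef]
      exact h1.trans_le hLrad
    have hYlt : 1 < Y := by
      by_contra hc
      have hY1 : Y = 1 := le_antisymm (not_lt.1 hc) hY
      rw [hY1, Real.one_rpow, Real.one_rpow] at h2
      linarith
    have h3 : γ / 2 * L.card < 1 := (Real.rpow_lt_rpow_left_iff hYlt).1 h2
    have h4 : (L.card : ℝ) ≤ 2 / γ := by
      rw [le_div_iff₀ hγ]
      linarith
    exact_mod_cast h4.trans hn
  have hNBL : NB n (Y ^ (2 * M)) (∏ p ∈ L, p ^ e p) := by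
    apply NB.mono_n _ h1Y hLcard
    apply NB.of_type (ι := {p // p ∈ L}) (Fintype.card_coe L) (fun p => p.1) (fun p => e p.1)
    · intro p
      refine ⟨(hLp p.1 p.2).pos, le_trans ?_ hY2M⟩
      refine le_trans ?_ hLrad
      exact_mod_cast single_le_prod' (f := fun p : ℕ => p) (fun q hq => (hLp q hq).one_lt.le) p.2
    · exact (prod_coe_sort L (fun p => p ^ e p)).symm
  rw [← hfac]
  exact NB.mul_base hNBL hu0 hule

end Pool.Agent.N745.T1
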