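import Mathlib
import Pool.Agent.N745.T1.Dust
import Pool.Agent.Y913.Params

/-!
# Levels of dustiness
-/

set_option autoImplicit false

namespace Pool.Agent.N745.T1

open Finset Pool.Agent.Y913 Pool.Agent.H785R2.ABC

/-- number of bases of solid integers of the level `γ` -/
noncomputable def nb (γ : ℝ) : ℕ := ⌈2 / γ⌉₊ + 1

/-- the relations between two consecutive levels -/
structure Step (η : ℝ) (M : ℕ) (γ : ℝ) (M' : ℕ) (γ' : ℝ) (w t0 : ℕ) : Prop where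
  hM' : 1 ≤ M'
  hγ' : 0 < γ'
  hγγ : γ' ≤ γ / 2
  hmono : (M : ℝ) * (γ / γ' + 1) ≤ M'
  small : γ' + 2 * γ' * ((2 * nb γ : ℕ) : ℝ) ^ 2 ≤ η
  hw : 2 * (M : ℝ) ≤ γ' * w
  hKK1 : 2 * KK (nb γ) (nb γ * w) ≤ M'
  hKK2 : 2 * KK (2 * nb γ) (2 * nb γ * w) ≤ M'
  ht0 : 3 ≤ γ' * t0
  htM : t0 ≤ M'

theorem exists_step (η : ℝ) (hη : 0 < η) (M : ℕ) (γ : ℝ) (hγ : 0 < γ) :
    ∃ (M' : ℕ) (γ' : ℝ) (w t0 : ℕ), Step η M γ M' γ' w t0 := by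
  set A : ℝ := 1 + 2 * ((2 * nb γ : ℕ) : ℝ) ^ 2 with hA
  have hA0 : 0 < A := by rw [hA]; positivity
  obtain ⟨γ', h0, h1, h2⟩ : ∃ γ' : ℝ, 0 < γ' ∧ γ' ≤ γ / 2 ∧ γ' * A ≤ η := by
    refine ⟨min (γ / 2) (η / A), lt_min (by positivity) (by positivity), min_le_left _ _, ?_⟩
    calc min (γ / 2) (η / A) * A ≤ η / A * A :=
          mul_le_mul_of_nonneg_right (min_le_right _ _) hA0.le
      _ = η := div_mul_cancel₀ _ hA0.ne'
  obtain ⟨w, hw⟩ := exists_nat_ge (2 * (M : ℝ) / γ')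
  obtain ⟨t0, ht0⟩ := exists_nat_ge (3 / γ')
  obtain ⟨m, hm⟩ := exists_nat_ge ((M : ℝ) * (γ / γ' + 1))
  refine ⟨1 + m + 2 * KK (nb γ) (nb γ * w) + 2 * KK (2 * nb γ) (2 * nb γ * w) + t0, γ', w, t0,
    ⟨by omega, h0, h1, ?_, ?_, ?_, by omega, by omega, ?_, by omega⟩⟩
  · refine hm.trans ?_
    exact_mod_cast (by omega : m ≤ 1 + m + 2 * KK (nb γ) (nb γ * w) +
      2 * KK (2 * nb γ) (2 * nb γ * w) + t0)
  · refine le_trans (le_of_eq ?_) h2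
    rw [hA]
    ring
  · rw [div_le_iff₀ h0] at hw
    linarith
  · rw [div_le_iff₀ h0] at ht0
    linarith

/-- a sequence of levels -/
theorem exists_levels (η : ℝ) (hη : 0 < η) : ∃ (M : ℕ → ℕ) (γ : ℕ → ℝ) (w t0 : ℕ → ℕ),
    ∀ j, (1 ≤ M j ∧ 0 < γ j ∧ γ j ≤ 1) ∧ Step η (M j) (γ j) (M (j + 1)) (γ (j + 1)) (w j) (t0 j) := by
  have h : ∀ x : {x : ℕ × ℝ // 0 < x.2}, ∃ y : {x : ℕ × ℝ // 0 < x.2}, ∃ w t0 : ℕ,
      Step η x.1.1 x.1.2 y.1.1 y.1.2 w t0 := by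
    rintro ⟨⟨M, γ⟩, hγ⟩
    obtain ⟨M', γ', w, t0, hs⟩ := exists_step η hη M γ hγ
    exact ⟨⟨(M', γ'), hs.hγ'⟩, w, t0, hs⟩
  choose f w t0 hf using h
  let x0 : {x : ℕ × ℝ // 0 < x.2} := ⟨(1, 1), one_pos⟩
  let a : ℕ → {x : ℕ × ℝ // 0 < x.2} := fun j => f^[j] x0
  have ha : ∀ j, a (j + 1) = f (a j) := fun j => Function.iterate_succ_apply' f j x0
  have hstep : ∀ j, Step η (a j).1.1 (a j).1.2 (a (j + 1)).1.1 (a (j + 1)).1.2 (w (a j))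
      (t0 (a j)) := by
    intro j
    rw [ha j]
    exact hf (a j)
  refine ⟨fun j => (a j).1.1, fun j => (a j).1.2, fun j => w (a j), fun j => t0 (a j), ?_⟩
  intro j
  refine ⟨?_, hstep j⟩
  induction j with
  | zero => exact ⟨le_rfl, one_pos, le_rfl⟩
  | succ j ih =>
    have h := hstep j
    refine ⟨h.hM', h.hγ', ?_⟩
    have := h.hγγ
    have := ih.2.2
    show (a (j + 1)).1.2 ≤ 1
    have h3 : (a j).1.2 ≤ 1 := ih.2.2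
    linarith [h.hγγ]

/-- dustiness decreases -/
theorem dusty_of_le {η Y : ℝ} (hY : 1 ≤ Y) {M : ℕ → ℕ} {γ : ℕ → ℝ} {w t0 : ℕ → ℕ}
    (h : ∀ j, (1 ≤ M j ∧ 0 < γ j ∧ γ j ≤ 1) ∧
      Step η (M j) (γ j) (M (j + 1)) (γ (j + 1)) (w j) (t0 j)) {m : ℕ} {i j : ℕ} (hij : i ≤ j)
    (hd : Dusty Y (γ j) (M j) m) : Dusty Y (γ i) (M i) m := by
  induction j with
  | zero =>
    obtain rfl : i = 0 := by omega
    exact hd
  | succ j ih =>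
    rcases Nat.lt_or_ge j i with h1 | h1
    · obtain rfl : i = j + 1 := by omega
      exact hd
    · apply ih h1
      obtain ⟨-, hs⟩ := h j
      exact hd.mono hY hs.hγ' hs.hγγ hs.hmono

/-- one of the four levels is good for three integers -/
theorem exists_good {η Y : ℝ} (hY : 1 ≤ Y) {M : ℕ → ℕ} {γ : ℕ → ℝ} {w t0 : ℕ → ℕ}
    (h : ∀ j, (1 ≤ M j ∧ 0 < γ j ∧ γ j ≤ 1) ∧
      Step η (M j) (γ j) (M (j + 1)) (γ (j + 1)) (w j) (t0 j)) (m : Fin 3 → ℕ) :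
    ∃ j : Fin 4, ∀ i : Fin 3, Dusty Y (γ (j + 1)) (M (j + 1)) (m i) ∨
      ¬ Dusty Y (γ j) (M j) (m i) := by
  by_contra hcon
  push Not at hcon
  choose f hf using hcon
  obtain ⟨j, j', hne, hjj⟩ := Fintype.exists_ne_map_eq_of_card_lt f (by simp)
  wlog hlt : j < j' generalizing j j'
  · exact this j' j (Ne.symm hne) hjj.symm (lt_of_le_of_ne (not_lt.1 hlt) (Ne.symm hne))
  have h1 := (hf j').2
  rw [← hjj] at h1
  exact (hf j).1 (dusty_of_le hY h (show (j : ℕ) + 1 ≤ (j' : ℕ) from hlt) h1)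

end Pool.Agent.N745.T1
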