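import Mathlib
import Pool.Agent.N745.T1.Dust
import Pool.Agent.H785R2.ABC.Final
import Pool.Agent.H785R2.ABC.Ecell

/-!
# Auxiliary bounds for cells
-/

set_option autoImplicit false

namespace Pool.Agent.N745.T1

open Finset Pool.Agent.H785R2.ABC Pool.Agent.H785R2.ABC.EC

/-- reduction to a fixed divisor of the member `r` -/
theorem dust_fiber {T : Finset (ℕ × ℕ × ℕ)} {Y γ : ℝ} {M : ℕ} {r : Fin 3} (hY : 1 ≤ Y)
    (hγ : 0 ≤ γ) (hT : ∀ t ∈ T, Dusty Y γ M (num t r)) {B : ℝ} (hB : 0 ≤ B)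
    (h : ∀ ρ : ℕ, Y ^ (γ / 2) < ρ → (ρ : ℝ) ≤ Y ^ γ →
      ((T.filter fun t => ρ ^ M ∣ num t r).card : ℝ) ≤ B) :
    (T.card : ℝ) ≤ Y ^ γ * B := by
  classical
  set I : Finset ℕ := (Icc 1 ⌊Y ^ γ⌋₊).filter fun ρ : ℕ => Y ^ (γ / 2) < (ρ : ℝ) with hI
  have hIcard : (I.card : ℝ) ≤ Y ^ γ := by
    have h1 : I.card ≤ ⌊Y ^ γ⌋₊ := by
      calc I.card ≤ (Icc 1 ⌊Y ^ γ⌋₊).card := card_filter_le _ _
        _ = ⌊Y ^ γ⌋₊ := by rw [Nat.card_Icc]; omega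
    calc (I.card : ℝ) ≤ (⌊Y ^ γ⌋₊ : ℝ) := by exact_mod_cast h1
      _ ≤ Y ^ γ := Nat.floor_le (by positivity)
  have hsub : T ⊆ I.biUnion fun ρ => T.filter fun t => ρ ^ M ∣ num t r := by
    intro t ht
    obtain ⟨ρ, h1, h2, h3⟩ := hT t ht
    rw [mem_biUnion]
    refine ⟨ρ, ?_, mem_filter.2 ⟨ht, h1⟩⟩
    rw [hI, mem_filter, mem_Icc]
    refine ⟨⟨?_, Nat.le_floor h3⟩, h2⟩
    have h4 : (1 : ℝ) ≤ Y ^ (γ / 2) := Real.one_le_rpow hY (by linarith)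
    have h5 : (1 : ℝ) < ρ := lt_of_le_of_lt h4 h2
    have h6 : 1 < ρ := by exact_mod_cast h5
    omega
  have h1 : (T.card : ℝ) ≤ ∑ ρ ∈ I, ((T.filter fun t => ρ ^ M ∣ num t r).card : ℝ) := by
    have h2 := (card_le_card hsub).trans card_biUnion_le
    exact_mod_cast h2
  refine h1.trans ?_
  calc ∑ ρ ∈ I, ((T.filter fun t => ρ ^ M ∣ num t r).card : ℝ) ≤ ∑ _ρ ∈ I, B := by
        apply sum_le_sum
        intro ρ hρ
        rw [hI, mem_filter, mem_Icc] at hρ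
        exact h ρ hρ.2 ((Nat.le_floor_iff (by positivity)).1 hρ.1.2)
    _ = (I.card : ℝ) * B := by rw [sum_const, nsmul_eq_mul]
    _ ≤ Y ^ γ * B := mul_le_mul_of_nonneg_right hIcard hB

/-- powers of the logarithm -/
theorem polylog_le (A n : ℕ) {e : ℝ} (he : 0 < e) : ∃ D : ℝ, 0 < D ∧ ∀ c : ℕ, 1 ≤ c →
    (((2 * (A + Nat.log 2 c) + 1) ^ n : ℕ) : ℝ) ≤ D * (c : ℝ) ^ e := by
  set η : ℝ := e / (n + 1) with hη
  have hη0 : 0 < η := by rw [hη]; positivity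
  refine ⟨((2 * A + 2) * (1 + 2 / η)) ^ n, by positivity, ?_⟩
  intro c hc
  have hc' : (1 : ℝ) ≤ c := by exact_mod_cast hc
  have hc0 : (0 : ℝ) ≤ c := by linarith
  have h1 := Fin1.log_le c hc η hη0
  have h2 : ((2 * (A + Nat.log 2 c) + 1 : ℕ) : ℝ) ≤ (2 * A + 2) * (1 + 2 / η) * (c : ℝ) ^ η := by
    have h3 : ((2 * (A + Nat.log 2 c) + 1 : ℕ) : ℝ) ≤ (2 * A + 2) * ((Nat.log 2 c + 1 : ℕ) : ℝ) := by
      push_cast
      have h4 : (0 : ℝ) ≤ (Nat.log 2 c : ℝ) := Nat.cast_nonneg _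
      have h5 : (0 : ℝ) ≤ (A : ℝ) := Nat.cast_nonneg _
      nlinarith [mul_nonneg h5 h4]
    rw [mul_assoc]
    exact h3.trans (mul_le_mul_of_nonneg_left h1 (by positivity))
  calc (((2 * (A + Nat.log 2 c) + 1) ^ n : ℕ) : ℝ)
      = ((2 * (A + Nat.log 2 c) + 1 : ℕ) : ℝ) ^ n := by push_cast; ring
    _ ≤ ((2 * A + 2) * (1 + 2 / η) * (c : ℝ) ^ η) ^ n :=
        pow_le_pow_left₀ (Nat.cast_nonneg _) h2 n
    _ = ((2 * A + 2) * (1 + 2 / η)) ^ n * (c : ℝ) ^ (η * n) := by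
        rw [mul_pow, Real.rpow_mul hc0, Real.rpow_natCast]
    _ ≤ ((2 * A + 2) * (1 + 2 / η)) ^ n * (c : ℝ) ^ e := by
        apply mul_le_mul_of_nonneg_left _ (by positivity)
        apply Real.rpow_le_rpow_of_exponent_le hc'
        rw [hη, div_mul_eq_mul_div, div_le_iff₀ (by positivity)]
        nlinarith [(Nat.cast_nonneg n : (0 : ℝ) ≤ n)]

/-- a multiple of the logarithm is smaller than a power for large `c` -/
theorem log_small (C n A : ℕ) {δ : ℝ} (hδ : 0 < δ) : ∃ c0 : ℕ, ∀ c : ℕ, c0 ≤ c → 1 ≤ c →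
    ((C * (n * (A + Nat.log 2 c)) : ℕ) : ℝ) ≤ (c : ℝ) ^ δ := by
  obtain ⟨D, hD, h⟩ := polylog_le A 1 (half_pos hδ)
  obtain ⟨x0, hx0⟩ := Filter.eventually_atTop.mp
    ((tendsto_rpow_atTop (half_pos hδ)).eventually_ge_atTop (((C * n : ℕ) : ℝ) * D))
  refine ⟨⌈x0⌉₊, ?_⟩
  intro c hc hc1
  have hc' : (0 : ℝ) < c := by exact_mod_cast hc1
  have h1 : ((C * n : ℕ) : ℝ) * D ≤ (c : ℝ) ^ (δ / 2) :=
    hx0 c ((Nat.le_ceil x0).trans (by exact_mod_cast hc))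
  have h2 := h c hc1
  rw [pow_one] at h2
  have h3 : ((A + Nat.log 2 c : ℕ) : ℝ) ≤ D * (c : ℝ) ^ (δ / 2) := by
    refine le_trans ?_ h2
    exact_mod_cast (by omega : A + Nat.log 2 c ≤ 2 * (A + Nat.log 2 c) + 1)
  calc ((C * (n * (A + Nat.log 2 c)) : ℕ) : ℝ)
      = ((C * n : ℕ) : ℝ) * ((A + Nat.log 2 c : ℕ) : ℝ) := by push_cast; ring
    _ ≤ ((C * n : ℕ) : ℝ) * (D * (c : ℝ) ^ (δ / 2)) :=
        mul_le_mul_of_nonneg_left h3 (Nat.cast_nonneg _)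
    _ = ((C * n : ℕ) : ℝ) * D * (c : ℝ) ^ (δ / 2) := by ring
    _ ≤ (c : ℝ) ^ (δ / 2) * (c : ℝ) ^ (δ / 2) :=
        mul_le_mul_of_nonneg_right h1 (by positivity)
    _ = (c : ℝ) ^ δ := by
        rw [← Real.rpow_add hc']
        congr 1
        ring

/-- a cell with bounded `c` has boundedly many elements -/
theorem card_small (hF : Basics) (K c0 : ℕ) : ∃ D : ℝ, 0 < D ∧ ∀ T0 : Finset (ℕ × ℕ × ℕ),
    Cell K T0 → ∀ s ∈ T0, s.2.2 ≤ c0 → (T0.card : ℝ) ≤ D := by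
  refine ⟨((2 ^ (K + 1) * c0 + 1) ^ 3 : ℕ), by positivity, ?_⟩
  intro T0 hT s hs hsc
  have h1 : T0 ⊆ range (2 ^ (K + 1) * c0 + 1) ×ˢ
      (range (2 ^ (K + 1) * c0 + 1) ×ˢ range (2 ^ (K + 1) * c0 + 1)) := by
    intro t ht
    have h2 : t.2.2 ≤ 2 ^ (K + 1) * c0 := by
      have := num_le_X hF hT ht hs 2
      simp only [num] at this
      exact this.trans (Nat.mul_le_mul_left _ hsc)
    obtain ⟨h3, h4, h5, h6, -⟩ := hT.abc t ht
    rw [mem_product, mem_product, mem_range, mem_range, mem_range]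
    omega
  have h2 := card_le_card h1
  rw [card_product, card_product, card_range] at h2
  calc (T0.card : ℝ) ≤ (((2 ^ (K + 1) * c0 + 1) * ((2 ^ (K + 1) * c0 + 1) *
        (2 ^ (K + 1) * c0 + 1)) : ℕ) : ℝ) := by exact_mod_cast h2
    _ = _ := by push_cast; ring

/-- the binary logarithm of a member -/
theorem log_num_le (hF : Basics) {K : ℕ} {T0 : Finset (ℕ × ℕ × ℕ)} (hT : Cell K T0)
    {s t : ℕ × ℕ × ℕ} (hs : s ∈ T0) (ht : t ∈ T0) (j : Fin 3) :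
    Nat.log 2 (num t j) ≤ (K + 1) + Nat.log 2 s.2.2 := by
  have h1 := num_le_X hF hT ht hs j
  have h2 : s.2.2 < 2 ^ (Nat.log 2 s.2.2 + 1) := Nat.lt_pow_succ_log_self (by norm_num) _
  have h3 : num t j < 2 ^ ((K + 1) + Nat.log 2 s.2.2 + 1) := by
    calc num t j ≤ 2 ^ (K + 1) * s.2.2 := h1
      _ < 2 ^ (K + 1) * 2 ^ (Nat.log 2 s.2.2 + 1) := Nat.mul_lt_mul_of_pos_left h2 (by positivity)
      _ = _ := by rw [← pow_add]; congr 1
  have h4 := Nat.log_lt_of_lt_pow (by have := num_pos (hT.abc t ht) j; omega) h3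
  omega

/-- the congruence between two members modulo a divisor of the third -/
theorem num_zmod {t : ℕ × ℕ × ℕ} (h : IsABCTriple t.1 t.2.1 t.2.2) {p q r : Fin 3}
    (hpq : p ≠ q) (hqr : q ≠ r) (hpr : p ≠ r) {f : ℕ} (hf : f ∣ num t r) :
    (num t p : ZMod f) = ((sg r : ℤ) : ZMod f) * (num t q : ZMod f) := by
  have h1 := num_dvd h hpq hqr hpr hf
  have h2 : ((sg r * (num t p : ℤ) : ℤ) : ZMod f) = ((num t q : ℤ) : ZMod f) :=
    (ZMod.intCast_eq_intCast_iff' _ _ f).2 h1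
  push_cast at h2
  have h3 : sg r * sg r = 1 := by unfold sg; split_ifs <;> norm_num
  have h4 : ((sg r : ℤ) : ZMod f) * ((sg r : ℤ) : ZMod f) = 1 := by
    rw [← Int.cast_mul, h3, Int.cast_one]
  rw [← h2, ← mul_assoc, h4, one_mul]

end Pool.Agent.N745.T1
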