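import Mathlib
import Pool.Agent.Y913.Nb.CountP3

/-!
# Counting products of bounded integers with varying exponents modulo a power of `r`
-/

set_option autoImplicit false

namespace Pool.Agent.N745.T1

open Finset Pool.Agent.Y913 Pool.Agent.Y913.Nb

/-- counting vectors with different values of a monomial, the exponents vary -/
theorem gen_count (σ : Type) [Fintype σ] [DecidableEq σ] (w : ℕ) : ∃ C0 : ℕ, ∀ (ι : Type)
    (r Z M E : ℕ) (I0 : Finset ι) (x : ι → σ → ℕ) (φ : ι → σ → ℤ) (κ : (ZMod (r ^ M))ˣ),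
    2 ≤ r → 1 ≤ Z → Z ≤ (r ^ 2) ^ w → C0 * (Fintype.card σ * E) ≤ r ^ 2 →
    2 * KK (Fintype.card σ) (Fintype.card σ * w) ≤ M →
    (∀ i ∈ I0, ∀ j, 1 ≤ x i j ∧ x i j ≤ Z ∧ (x i j).Coprime r) →
    (∀ i ∈ I0, ∀ j, |φ i j| ≤ (E : ℤ)) →
    (∀ i ∈ I0, ∏ j, (ud (r ^ M) (x i j)) ^ φ i j = κ) →
    (∀ i ∈ I0, ∀ i' ∈ I0, ∑ j, (φ i j : ℝ) * Real.log (x i j) =
      ∑ j, (φ i' j : ℝ) * Real.log (x i' j) → i = i') →
    I0.card ≤ (2 * E + 1) ^ Fintype.card σ *
      (C0 * (r ^ 2) ^ Fintype.card σ) ^ Fintype.card σ := by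
  classical
  obtain ⟨M0, C1, h⟩ := count_padic_val3 σ w
  refine ⟨max M0 C1, ?_⟩
  intro ι r Z M E I0 x φ κ hr hZ hZr hE hK hx hφ hrel hinj
  set J : Finset (σ → ℤ) := Fintype.piFinset fun _ => Icc (-(E : ℤ)) E with hJ
  have hJcard : J.card = (2 * E + 1) ^ Fintype.card σ := by
    rw [hJ, Fintype.card_piFinset]
    simp only [Int.card_Icc, prod_const, card_univ]
    congr 1
    omega
  have hmaps : ∀ i ∈ I0, φ i ∈ J := by
    intro i hi
    rw [hJ, Fintype.mem_piFinset]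
    intro j
    rw [mem_Icc]
    exact abs_le.1 (hφ i hi j)
  rw [card_eq_sum_card_fiberwise (f := φ) (t := J) (fun i hi => mem_coe.2 (hmaps i (mem_coe.1 hi)))]
  have hfib : ∀ ψ ∈ J, (I0.filter fun i => φ i = ψ).card ≤
      (max M0 C1 * (r ^ 2) ^ Fintype.card σ) ^ Fintype.card σ := by
    intro ψ hψ
    rw [hJ, Fintype.mem_piFinset] at hψ
    have hψ' : ∀ j, |ψ j| ≤ (E : ℤ) := fun j => abs_le.2 (mem_Icc.1 (hψ j))
    refine (h ι r 2 Z M (Fintype.card σ * E) ψ (I0.filter fun i => φ i = ψ) x κ hr le_rfl hZ hZr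
      ?_ ?_ hK ?_ ?_ ?_).trans ?_
    · calc ∑ j, |ψ j| ≤ ∑ _j : σ, (E : ℤ) := sum_le_sum fun j _ => hψ' j
        _ = ((Fintype.card σ * E : ℕ) : ℤ) := by
          rw [sum_const, card_univ, nsmul_eq_mul]
          push_cast
          rfl
    · exact (Nat.mul_le_mul_right _ (le_max_left _ _)).trans hE
    · intro i hi
      exact hx i (mem_filter.1 hi).1
    · intro i hi
      rw [mem_filter] at hi
      rw [← hi.2]
      exact hrel i hi.1
    · intro i hi i' hi' hii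
      rw [mem_filter] at hi hi'
      apply hinj i hi.1 i' hi'.1
      rw [hi.2, hi'.2]
      exact hii
    · apply Nat.pow_le_pow_left
      exact Nat.mul_le_mul_right _ (le_max_right _ _)
  calc ∑ ψ ∈ J, (I0.filter fun i => φ i = ψ).card
      ≤ ∑ _ψ ∈ J, (max M0 C1 * (r ^ 2) ^ Fintype.card σ) ^ Fintype.card σ := sum_le_sum hfib
    _ = _ := by rw [sum_const, hJcard, smul_eq_mul]

end Pool.Agent.N745.T1
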