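import Mathlib
import Pool.Agent.N745.T1.Gen
import Pool.Agent.Y913.Nb.Rep

/-!
# Solid integers in a residue class modulo a high power of a small integer
-/

set_option autoImplicit false

namespace Pool.Agent.N745.T1

open Finset Pool.Agent.Y913 Pool.Agent.Y913.Nb

lemma ud_prod_pow {N n : ℕ} (x a : Fin n → ℕ) (hx : ∀ i, (x i).Coprime N) :
    ud N (∏ i, x i ^ a i) = ∏ i, (ud N (x i)) ^ a i := by
  rw [ud_prod univ (fun i => x i ^ a i) (fun i _ => Nat.Coprime.pow_left _ (hx i))]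
  apply prod_congr rfl
  intro i _
  rw [← Units.val_inj, ud_coe (Nat.Coprime.pow_left _ (hx i)), Units.val_pow_eq_pow_val,
    ud_coe (hx i)]
  push_cast
  rfl

lemma log_prod_pow {n : ℕ} (x a : Fin n → ℕ) (hx : ∀ i, 1 ≤ x i) :
    Real.log ((∏ i, x i ^ a i : ℕ) : ℝ) = ∑ i, (a i : ℝ) * Real.log (x i) := by
  push_cast
  rw [Real.log_prod (fun i _ => pow_ne_zero _ (by have := hx i; positivity))]
  simp only [Real.log_pow]

/-- solid integers in one residue class -/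
theorem count_one (n w : ℕ) : ∃ C0 : ℕ, ∀ (r M E : ℕ) (Y0 : ℝ) (A : Finset ℕ)
    (κ : ZMod (r ^ M)), 2 ≤ r → 1 ≤ Y0 → Y0 ≤ (((r ^ 2) ^ w : ℕ) : ℝ) →
    C0 * (n * E) ≤ r ^ 2 → 2 * KK n (n * w) ≤ M →
    (∀ m ∈ A, 0 < m ∧ NB n Y0 m ∧ m.Coprime r ∧ (m : ZMod (r ^ M)) = κ ∧ Nat.log 2 m ≤ E) →
    A.card ≤ (2 * E + 1) ^ n * (C0 * (r ^ 2) ^ n) ^ n := by
  classical
  obtain ⟨C0, h⟩ := gen_count (Fin n) w
  refine ⟨C0, ?_⟩
  intro r M E Y0 A κ hr hY0 hY0r hE hK hA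
  rcases A.eq_empty_or_nonempty with rfl | ⟨m0, hm0⟩
  · simp
  have hnorm : ∀ m : ℕ, ∃ x a : Fin n → ℕ, m ∈ A → (∀ i, 1 ≤ x i ∧ (x i : ℝ) ≤ Y0) ∧
      m = ∏ i, x i ^ a i ∧ (∀ i, 2 ^ a i ≤ m) ∧ ∀ i, x i ∣ m := by
    intro m
    by_cases hm : m ∈ A
    · obtain ⟨h1, h2, -, -, -⟩ := hA m hm
      obtain ⟨x, a, h3, h4, h5, h6⟩ := h2.normal h1 hY0
      exact ⟨x, a, fun _ => ⟨h3, h4, h5, h6⟩⟩
    · exact ⟨fun _ => 1, fun _ => 0, fun h => absurd h hm⟩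
  choose x a hxa using hnorm
  have hcop : ∀ m ∈ A, ∀ i, (x m i).Coprime r := fun m hm i =>
    Nat.Coprime.coprime_dvd_left ((hxa m hm).2.2.2 i) (hA m hm).2.2.1
  have hcopN : ∀ m ∈ A, m.Coprime (r ^ M) := fun m hm =>
    Nat.Coprime.pow_right _ (hA m hm).2.2.1
  have hmain := h ℕ r ⌊Y0⌋₊ M E A x (fun m i => (a m i : ℤ)) (ud (r ^ M) m0) hr
    (Nat.le_floor (by exact_mod_cast hY0)) (Nat.floor_le_of_le hY0r)
    (by rw [Fintype.card_fin]; exact hE) (by rw [Fintype.card_fin]; exact hK)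
    (fun m hm i => ⟨((hxa m hm).1 i).1, Nat.le_floor ((hxa m hm).1 i).2, hcop m hm i⟩)
    (fun m hm i => by
      obtain ⟨h1, -, -, -, h5⟩ := hA m hm
      rw [abs_of_nonneg (Int.natCast_nonneg _)]
      have h2 : a m i ≤ Nat.log 2 m := Nat.le_log_of_pow_le (by norm_num) ((hxa m hm).2.2.1 i)
      exact_mod_cast h2.trans h5)
    (fun m hm => by
      simp only [zpow_natCast]
      rw [← ud_prod_pow (x m) (a m) (fun i => Nat.Coprime.pow_right _ (hcop m hm i)),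
        ← (hxa m hm).2.1, ← Units.val_inj, ud_coe (hcopN m hm), ud_coe (hcopN m0 hm0),
        (hA m hm).2.2.2.1, (hA m0 hm0).2.2.2.1])
    (fun m hm m' hm' hmm => by
      have h1 := log_prod_pow (x m) (a m) (fun i => ((hxa m hm).1 i).1)
      have h2 := log_prod_pow (x m') (a m') (fun i => ((hxa m' hm').1 i).1)
      rw [← (hxa m hm).2.1] at h1
      rw [← (hxa m' hm').2.1] at h2
      have h3 : Real.log (m : ℝ) = Real.log (m' : ℝ) := by
        rw [h1, h2]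
        simpa using hmm
      have h4 := (hA m hm).1
      have h5 := (hA m' hm').1
      have h6 := Real.log_injOn_pos (by
        show (0 : ℝ) < _
        exact_mod_cast h4) (by
        show (0 : ℝ) < _
        exact_mod_cast h5) h3
      exact_mod_cast h6)
  rw [Fintype.card_fin] at hmain
  exact hmain

lemma pair_eq_of_ratio {a b c d : ℕ} (hb : 0 < b) (hd : 0 < d)
    (hab : a.Coprime b) (hcd : c.Coprime d) (h : a * d = c * b) : a = c ∧ b = d := by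
  have h1 : b ∣ d := by
    have : b ∣ a * d := h ▸ Dvd.intro_left c rfl
    exact hab.symm.dvd_of_dvd_mul_left this
  have h2 : d ∣ b := by
    have : d ∣ c * b := h ▸ Dvd.intro_left a rfl
    exact hcd.symm.dvd_of_dvd_mul_left this
  have h3 : b = d := Nat.dvd_antisymm h1 h2
  subst h3
  exact ⟨Nat.eq_of_mul_eq_mul_right hb h, rfl⟩

/-- pairs of solid integers with a fixed ratio modulo a high power -/
theorem count_two (n w : ℕ) : ∃ C0 : ℕ, ∀ (r M E : ℕ) (Y0 : ℝ) (A : Finset (ℕ × ℕ))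
    (κ : (ZMod (r ^ M))ˣ), 2 ≤ r → 1 ≤ Y0 → Y0 ≤ (((r ^ 2) ^ w : ℕ) : ℝ) →
    C0 * (2 * n * E) ≤ r ^ 2 → 2 * KK (2 * n) (2 * n * w) ≤ M →
    (∀ t ∈ A, (0 < t.1 ∧ NB n Y0 t.1 ∧ t.1.Coprime r ∧ Nat.log 2 t.1 ≤ E) ∧
      (0 < t.2 ∧ NB n Y0 t.2 ∧ t.2.Coprime r ∧ Nat.log 2 t.2 ≤ E) ∧
      t.1.Coprime t.2 ∧ (t.1 : ZMod (r ^ M)) = κ * t.2) →
    A.card ≤ (2 * E + 1) ^ (2 * n) * (C0 * (r ^ 2) ^ (2 * n)) ^ (2 * n) := by
  classical
  obtain ⟨C0, h⟩ := gen_count (Fin n ⊕ Fin n) w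
  refine ⟨C0, ?_⟩
  have hcard : Fintype.card (Fin n ⊕ Fin n) = 2 * n := by
    rw [Fintype.card_sum, Fintype.card_fin]
    ring
  rw [hcard] at h
  intro r M E Y0 A κ hr hY0 hY0r hE hK hA
  have hnorm1 : ∀ t : ℕ × ℕ, ∃ x a : Fin n → ℕ, t ∈ A → (∀ i, 1 ≤ x i ∧ (x i : ℝ) ≤ Y0) ∧
      t.1 = ∏ i, x i ^ a i ∧ (∀ i, 2 ^ a i ≤ t.1) ∧ ∀ i, x i ∣ t.1 := by
    intro t
    by_cases ht : t ∈ A
    · obtain ⟨h1, h2, -, -⟩ := (hA t ht).1
      obtain ⟨x, a, h3, h4, h5, h6⟩ := h2.normal h1 hY0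
      exact ⟨x, a, fun _ => ⟨h3, h4, h5, h6⟩⟩
    · exact ⟨fun _ => 1, fun _ => 0, fun h => absurd h ht⟩
  have hnorm2 : ∀ t : ℕ × ℕ, ∃ x a : Fin n → ℕ, t ∈ A → (∀ i, 1 ≤ x i ∧ (x i : ℝ) ≤ Y0) ∧
      t.2 = ∏ i, x i ^ a i ∧ (∀ i, 2 ^ a i ≤ t.2) ∧ ∀ i, x i ∣ t.2 := by
    intro t
    by_cases ht : t ∈ A
    · obtain ⟨h1, h2, -, -⟩ := (hA t ht).2.1
      obtain ⟨x, a, h3, h4, h5, h6⟩ := h2.normal h1 hY0
      exact ⟨x, a, fun _ => ⟨h3, h4, h5, h6⟩⟩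
    · exact ⟨fun _ => 1, fun _ => 0, fun h => absurd h ht⟩
  choose x a hxa using hnorm1
  choose y b hyb using hnorm2
  have hcx : ∀ t ∈ A, ∀ i, (x t i).Coprime r := fun t ht i =>
    Nat.Coprime.coprime_dvd_left ((hxa t ht).2.2.2 i) (hA t ht).1.2.2.1
  have hcy : ∀ t ∈ A, ∀ i, (y t i).Coprime r := fun t ht i =>
    Nat.Coprime.coprime_dvd_left ((hyb t ht).2.2.2 i) (hA t ht).2.1.2.2.1
  refine h (ℕ × ℕ) r ⌊Y0⌋₊ M E A (fun t => Sum.elim (x t) (y t))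
    (fun t => Sum.elim (fun i => (a t i : ℤ)) (fun i => -(b t i : ℤ))) κ hr
    (Nat.le_floor (by exact_mod_cast hY0)) (Nat.floor_le_of_le hY0r) hE hK ?_ ?_ ?_ ?_
  · rintro t ht (i | i)
    · exact ⟨((hxa t ht).1 i).1, Nat.le_floor ((hxa t ht).1 i).2, hcx t ht i⟩
    · exact ⟨((hyb t ht).1 i).1, Nat.le_floor ((hyb t ht).1 i).2, hcy t ht i⟩
  · rintro t ht (i | i)
    · simp only [Sum.elim_inl]
      rw [abs_of_nonneg (Int.natCast_nonneg _)]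
      have h2 : a t i ≤ Nat.log 2 t.1 :=
        Nat.le_log_of_pow_le (by norm_num) ((hxa t ht).2.2.1 i)
      exact_mod_cast h2.trans (hA t ht).1.2.2.2
    · simp only [Sum.elim_inr]
      rw [abs_neg, abs_of_nonneg (Int.natCast_nonneg _)]
      have h2 : b t i ≤ Nat.log 2 t.2 :=
        Nat.le_log_of_pow_le (by norm_num) ((hyb t ht).2.2.1 i)
      exact_mod_cast h2.trans (hA t ht).2.1.2.2.2
  · intro t ht
    rw [Fintype.prod_sum_type]
    simp only [Sum.elim_inl, Sum.elim_inr, zpow_natCast, zpow_neg]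
    rw [prod_inv_distrib,
      ← ud_prod_pow (x t) (a t) (fun i => Nat.Coprime.pow_right _ (hcx t ht i)),
      ← ud_prod_pow (y t) (b t) (fun i => Nat.Coprime.pow_right _ (hcy t ht i)),
      ← (hxa t ht).2.1, ← (hyb t ht).2.1, mul_inv_eq_iff_eq_mul, ← Units.val_inj,
      ud_coe (Nat.Coprime.pow_right _ (hA t ht).1.2.2.1), Units.val_mul,
      ud_coe (Nat.Coprime.pow_right _ (hA t ht).2.1.2.2.1)]
    exact (hA t ht).2.2.2
  · intro t ht t' ht' htt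
    rw [Fintype.sum_sum_type, Fintype.sum_sum_type] at htt
    simp only [Sum.elim_inl, Sum.elim_inr] at htt
    push_cast at htt
    simp only [neg_mul, sum_neg_distrib] at htt
    have h1 := log_prod_pow (x t) (a t) (fun i => ((hxa t ht).1 i).1)
    have h2 := log_prod_pow (x t') (a t') (fun i => ((hxa t' ht').1 i).1)
    have h3 := log_prod_pow (y t) (b t) (fun i => ((hyb t ht).1 i).1)
    have h4 := log_prod_pow (y t') (b t') (fun i => ((hyb t' ht').1 i).1)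
    rw [← (hxa t ht).2.1] at h1
    rw [← (hxa t' ht').2.1] at h2
    rw [← (hyb t ht).2.1] at h3
    rw [← (hyb t' ht').2.1] at h4
    rw [← h1, ← h2, ← h3, ← h4] at htt
    have g1 : (0 : ℝ) < t.1 := by exact_mod_cast (hA t ht).1.1
    have g2 : (0 : ℝ) < t'.1 := by exact_mod_cast (hA t' ht').1.1
    have g3 : (0 : ℝ) < t.2 := by exact_mod_cast (hA t ht).2.1.1
    have g4 : (0 : ℝ) < t'.2 := by exact_mod_cast (hA t' ht').2.1.1
    have h5 : Real.log ((t.1 : ℝ) * t'.2) = Real.log ((t'.1 : ℝ) * t.2) := by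
      rw [Real.log_mul g1.ne' g4.ne', Real.log_mul g2.ne' g3.ne']
      linarith
    have h6 := Real.log_injOn_pos (by
        show (0 : ℝ) < _
        positivity) (by
        show (0 : ℝ) < _
        positivity) h5
    have h7 : t.1 * t'.2 = t'.1 * t.2 := by exact_mod_cast h6
    obtain ⟨h8, h9⟩ := pair_eq_of_ratio (hA t ht).2.1.1 (hA t' ht').2.1.1
      (hA t ht).2.2.1 (hA t' ht').2.2.1 h7
    exact Prod.ext h8 h9

end Pool.Agent.N745.T1
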