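import Mathlib
import Pool.Agent.N745.T1.Pat1

/-!
# Cells with two solid members and a dusty member
-/

set_option autoImplicit false

namespace Pool.Agent.N745.T1

open Finset Pool.Agent.H785R2.ABC Pool.Agent.H785R2.ABC.EC Pool.Agent.Y913
  Pool.Agent.Y913.Nb

/-- the sign as a unit -/
lemma exists_sg_unit (r : Fin 3) (N : ℕ) : ∃ κ : (ZMod N)ˣ, (κ : ZMod N) = ((sg r : ℤ) : ZMod N) := by
  unfold sg
  split_ifs
  · exact ⟨-1, by simp⟩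
  · exact ⟨1, by simp⟩

/-- **two solid members**: the member `r` is dusty, `p` and `q` are solid -/
theorem pat_two (hF : Basics) (n w M M' K : ℕ) (γ lam e : ℝ) (hγ : 0 < γ)
    (hlam : 0 < lam) (he : 0 < e) (hM' : 1 ≤ M') (hKK : 2 * KK (2 * n) (2 * n * w) ≤ M')
    (hw : 2 * (M : ℝ) ≤ γ * w) :
    ∃ D : ℝ, 0 < D ∧ ∀ T0 : Finset (ℕ × ℕ × ℕ), Cell K T0 → ∀ s ∈ T0, ∀ Y : ℝ, 1 ≤ Y →
      (s.2.2 : ℝ) ^ lam ≤ Y → ∀ p q r : Fin 3, p ≠ q → q ≠ r → p ≠ r →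
      ∀ T : Finset (ℕ × ℕ × ℕ), T ⊆ T0 → (∀ t ∈ T, Dusty Y γ M' (num t r)) →
      (∀ t ∈ T, NB n (Y ^ (2 * M)) (num t p)) → (∀ t ∈ T, NB n (Y ^ (2 * M)) (num t q)) →
      (T.card : ℝ) ≤ D * (s.2.2 : ℝ) ^ e * Y ^ (γ + 2 * γ * ((2 * n : ℕ) : ℝ) ^ 2) := by
  classical
  obtain ⟨C0, hC0⟩ := count_two n w
  obtain ⟨Dp, hDp, hp⟩ := polylog_le (K + 1) (2 * n) he
  obtain ⟨c0, hc0⟩ := log_small C0 (2 * n) (K + 1) (δ := lam * γ) (mul_pos hlam hγ)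
  obtain ⟨Ds, hDs, hsm⟩ := card_small hF K c0
  refine ⟨Ds + Dp * (C0 : ℝ) ^ (2 * n), by positivity, ?_⟩
  intro T0 hT s hs Y hY hcY p q r hpq hqr hpr T hTT hdus hnb hnb'
  have hY0 : (0 : ℝ) < Y := by linarith
  have hc1 : 1 ≤ s.2.2 := (hT.abc s hs).2.2.1
  have hcR : (1 : ℝ) ≤ s.2.2 := by exact_mod_cast hc1
  have hcR0 : (0 : ℝ) < s.2.2 := by linarith
  have hce : (1 : ℝ) ≤ (s.2.2 : ℝ) ^ e := Real.one_le_rpow hcR he.le
  have hYe : (1 : ℝ) ≤ Y ^ (γ + 2 * γ * ((2 * n : ℕ) : ℝ) ^ 2) :=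
    Real.one_le_rpow hY (by positivity)
  rcases le_or_gt s.2.2 c0 with hsc | hsc
  · -- bounded `c`
    have h1 : (T.card : ℝ) ≤ Ds :=
      (by exact_mod_cast card_le_card hTT : (T.card : ℝ) ≤ T0.card).trans (hsm T0 hT s hs hsc)
    have h2 : Ds ≤ Ds + Dp * (C0 : ℝ) ^ (2 * n) :=
      le_add_of_nonneg_right (by positivity)
    have h3 : (1 : ℝ) ≤ (s.2.2 : ℝ) ^ e * Y ^ (γ + 2 * γ * ((2 * n : ℕ) : ℝ) ^ 2) :=
      one_le_mul_of_one_le_of_one_le hce hYe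
    calc (T.card : ℝ) ≤ Ds + Dp * (C0 : ℝ) ^ (2 * n) := h1.trans h2
      _ = (Ds + Dp * (C0 : ℝ) ^ (2 * n)) * 1 := (mul_one _).symm
      _ ≤ (Ds + Dp * (C0 : ℝ) ^ (2 * n)) * ((s.2.2 : ℝ) ^ e *
          Y ^ (γ + 2 * γ * ((2 * n : ℕ) : ℝ) ^ 2)) :=
          mul_le_mul_of_nonneg_left h3 (by positivity)
      _ = _ := by ring
  -- large `c`
  obtain ⟨E, hE⟩ : ∃ E, E = K + 1 + Nat.log 2 s.2.2 := ⟨_, rfl⟩
  set B2 : ℝ := Dp * (s.2.2 : ℝ) ^ e * (C0 : ℝ) ^ (2 * n) *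
    Y ^ (2 * γ * ((2 * n : ℕ) : ℝ) ^ 2) with hB2
  have hB20 : 0 ≤ B2 := by rw [hB2]; positivity
  have hfib := dust_fiber (B := B2) hY hγ.le hdus hB20 (by
    intro ρ hρ1 hρ2
    obtain ⟨g1, g2, g3⟩ := rho_bounds (M := M) (w := w) hY hγ hw hρ1
    set Tρ := T.filter fun t => ρ ^ M' ∣ num t r with hTρ
    have hTm : ∀ t ∈ Tρ, t ∈ T ∧ ρ ^ M' ∣ num t r := fun t ht => by
      rw [hTρ, mem_filter] at ht
      exact ht
    have hcard : (Tρ.image fun t => (num t p, num t q)).card = Tρ.card := by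
      apply card_image_of_injOn
      intro t ht t' ht' htt
      simp only [Prod.mk.injEq] at htt
      exact num_inj (hT.abc t (hTT (hTm t ht).1)) (hT.abc t' (hTT (hTm t' ht').1)) hpq htt.1 htt.2
    obtain ⟨κ, hκ⟩ := exists_sg_unit r (ρ ^ M')
    have h5 := hC0 ρ M' E (Y ^ (2 * M)) (Tρ.image fun t => (num t p, num t q)) κ g1
      (one_le_pow₀ hY) g2 (by
        have h6 : ((C0 * (2 * n * E) : ℕ) : ℝ) ≤ ((ρ ^ 2 : ℕ) : ℝ) := by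
          calc ((C0 * (2 * n * E) : ℕ) : ℝ) ≤ (s.2.2 : ℝ) ^ (lam * γ) := by
                rw [hE]; exact hc0 s.2.2 hsc.le hc1
            _ = ((s.2.2 : ℝ) ^ lam) ^ γ := by rw [Real.rpow_mul hcR0.le]
            _ ≤ Y ^ γ := Real.rpow_le_rpow (by positivity) hcY hγ.le
            _ ≤ _ := g3
        exact_mod_cast h6) hKK (by
        intro x hx
        obtain ⟨t, ht, rfl⟩ := mem_image.1 hx
        obtain ⟨b1, b2⟩ := hTm t ht
        have htT := hTT b1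
        have hρr : ρ ∣ num t r := (dvd_pow_self ρ (by omega)).trans b2
        refine ⟨⟨num_pos (hT.abc t htT) p, hnb t b1,
          Nat.Coprime.coprime_dvd_right hρr (num_coprime (hT.abc t htT) hpr), ?_⟩,
          ⟨num_pos (hT.abc t htT) q, hnb' t b1,
          Nat.Coprime.coprime_dvd_right hρr (num_coprime (hT.abc t htT) hqr), ?_⟩,
          num_coprime (hT.abc t htT) hpq, ?_⟩
        · rw [hE]
          exact log_num_le hF hT hs htT p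
        · rw [hE]
          exact log_num_le hF hT hs htT q
        · rw [hκ]
          exact num_zmod (hT.abc t htT) hpq hqr hpr b2)
    rw [hcard] at h5
    have h6 := rho_pow_le hY hρ2 C0 E (2 * n)
    have h7 := hp s.2.2 hc1
    rw [← hE] at h7
    calc (Tρ.card : ℝ) ≤ (((2 * E + 1) ^ (2 * n) * (C0 * (ρ ^ 2) ^ (2 * n)) ^ (2 * n) : ℕ) : ℝ) := by
          exact_mod_cast h5
      _ ≤ (((2 * E + 1) ^ (2 * n) : ℕ) : ℝ) * (C0 : ℝ) ^ (2 * n) *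
          Y ^ (2 * γ * ((2 * n : ℕ) : ℝ) ^ 2) := h6
      _ ≤ (Dp * (s.2.2 : ℝ) ^ e) * (C0 : ℝ) ^ (2 * n) *
          Y ^ (2 * γ * ((2 * n : ℕ) : ℝ) ^ 2) := by
          gcongr
      _ = B2 := by rw [hB2])
  have hYmul : Y ^ γ * Y ^ (2 * γ * ((2 * n : ℕ) : ℝ) ^ 2) =
      Y ^ (γ + 2 * γ * ((2 * n : ℕ) : ℝ) ^ 2) := (Real.rpow_add hY0 _ _).symm
  calc (T.card : ℝ) ≤ Y ^ γ * B2 := hfib
    _ = (Dp * (C0 : ℝ) ^ (2 * n)) * (s.2.2 : ℝ) ^ e *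
        (Y ^ γ * Y ^ (2 * γ * ((2 * n : ℕ) : ℝ) ^ 2)) := by
        rw [hB2]; ring
    _ = (Dp * (C0 : ℝ) ^ (2 * n)) * (s.2.2 : ℝ) ^ e *
        Y ^ (γ + 2 * γ * ((2 * n : ℕ) : ℝ) ^ 2) := by rw [hYmul]
    _ ≤ _ := by
        apply mul_le_mul_of_nonneg_right _ (by positivity)
        apply mul_le_mul_of_nonneg_right _ (by positivity)
        exact le_add_of_nonneg_left hDs.le

end Pool.Agent.N745.T1
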