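import Mathlib
import Pool.Agent.N745.T1.Cel
import Pool.Agent.N745.T1.EstD

/-!
# Cells with a dusty member: Cauchy-Schwarz
-/

set_option autoImplicit false

namespace Pool.Agent.N745.T1

open Finset Pool.Agent.H785R2.ABC Pool.Agent.H785R2.ABC.EC Pool.Agent.H705R2.ABC

/-- the radical of the part with large exponents is small -/
lemma rd_last_le (hF : Basics) {K : ℕ} {s : ℕ × ℕ × ℕ} (h : IsABCTriple s.1 s.2.1 s.2.2)
    {e : ℝ} (hK : 1 ≤ e * ((K : ℝ) + 1)) (j : Fin 3) :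
    (rd K (num s j) {Fin.last K} : ℝ) ≤ (s.2.2 : ℝ) ^ e := by
  have hc1 : 1 ≤ s.2.2 := h.2.2.1
  have hcR : (1 : ℝ) ≤ s.2.2 := by exact_mod_cast hc1
  have hcR0 : (0 : ℝ) < s.2.2 := by linarith
  have h1 : rd K (num s j) {Fin.last K} ^ (K + 1) ≤ s.2.2 :=
    (hF.part_last K _).trans ((Nat.le_of_dvd (num_pos h j) (hF.part_dvd K _ _ (num_pos h j))).trans
      (num_le h j))
  have h2 : ((rd K (num s j) {Fin.last K} : ℝ)) ^ (K + 1) ≤ (s.2.2 : ℝ) := by exact_mod_cast h1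
  have hK1 : (0 : ℝ) < (K : ℝ) + 1 := by positivity
  calc (rd K (num s j) {Fin.last K} : ℝ)
      = ((rd K (num s j) {Fin.last K} : ℝ) ^ (K + 1)) ^ (1 / ((K : ℝ) + 1)) := by
        rw [← Real.rpow_natCast, ← Real.rpow_mul (Nat.cast_nonneg _)]
        push_cast
        rw [mul_one_div_cancel hK1.ne', Real.rpow_one]
    _ ≤ (s.2.2 : ℝ) ^ (1 / ((K : ℝ) + 1)) := Real.rpow_le_rpow (by positivity) h2 (by positivity)
    _ ≤ (s.2.2 : ℝ) ^ e := by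
        apply Real.rpow_le_rpow_of_exponent_le hcR
        rw [div_le_iff₀ hK1]
        exact hK

/-- **one dusty member** `r`: Cauchy-Schwarz for the other two -/
theorem pat_est (hF : Basics) (hA4 : StmtA4) (hJ : StmtJ) (t0 M' K : ℕ) (γ e : ℝ) (hγ : 0 < γ)
    (he : 0 < e) (ht0 : 3 ≤ γ * t0) (htM : t0 ≤ M') (hK : 1 ≤ e * ((K : ℝ) + 1)) :
    ∃ D : ℝ, 0 < D ∧ ∀ T0 : Finset (ℕ × ℕ × ℕ), Cell K T0 → ∀ s ∈ T0, ∀ Y : ℝ, 1 ≤ Y →
      (∀ j, (rd K (num s j) univ : ℝ) ≤ Y) → ∀ p q r : Fin 3, p ≠ q → q ≠ r → p ≠ r →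
      ∀ T : Finset (ℕ × ℕ × ℕ), T ⊆ T0 → (∀ t ∈ T, Dusty Y γ M' (num t r)) →
      (T.card : ℝ) ≤ D * (s.2.2 : ℝ) ^ (2 * e) * Y ^ γ *
        ((rd K (num s p) univ : ℝ) * rd K (num s q) univ) ^ ((1 : ℝ) / 2) := by
  classical
  obtain ⟨D, hD, hd⟩ := estD hF hA4 hJ K e he
  refine ⟨D, hD, ?_⟩
  intro T0 hT s hs Y hY hrY p q r hpq hqr hpr T hTT hdus
  have hY0 : (0 : ℝ) < Y := by linarith
  have hc1 : 1 ≤ s.2.2 := (hT.abc s hs).2.2.1
  have hcR : (1 : ℝ) ≤ s.2.2 := by exact_mod_cast hc1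
  have hcR0 : (0 : ℝ) < s.2.2 := by linarith
  set up : ℝ := (rd K (num s p) univ : ℝ) with hup
  set uq : ℝ := (rd K (num s q) univ : ℝ) with huq
  have hup0 : 0 ≤ up := by rw [hup]; positivity
  have huq0 : 0 ≤ uq := by rw [huq]; positivity
  set B : ℝ := D * (s.2.2 : ℝ) ^ (2 * e) * (up * uq) ^ ((1 : ℝ) / 2) with hB
  have hB0 : 0 ≤ B := by rw [hB]; positivity
  have hfib := dust_fiber (B := B) hY hγ.le hdus hB0 (by
    intro ρ hρ1 hρ2
    have h1 : Y ^ ((3 : ℝ) / 2) ≤ ((ρ ^ t0 : ℕ) : ℝ) := by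
      calc Y ^ ((3 : ℝ) / 2) ≤ Y ^ (γ / 2 * t0) :=
            Real.rpow_le_rpow_of_exponent_le hY (by linarith)
        _ = (Y ^ (γ / 2)) ^ t0 := by rw [Real.rpow_mul hY0.le, Real.rpow_natCast]
        _ ≤ (ρ : ℝ) ^ t0 := pow_le_pow_left₀ (by positivity) hρ1.le t0
        _ = _ := by push_cast; rfl
    have h2 : ∀ j, (rd K (num s j) univ : ℝ) ^ ((3 : ℝ) / 2) ≤ ((ρ ^ t0 : ℕ) : ℝ) := fun j =>
      (Real.rpow_le_rpow (by positivity) (hrY j) (by norm_num)).trans h1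
    have h3 := hd T0 hT s hs p q r hpq hqr hpr (ρ ^ t0) (h2 p) (h2 q)
      (T.filter fun t => ρ ^ M' ∣ num t r) ((filter_subset _ _).trans hTT) (fun t ht =>
        (pow_dvd_pow ρ htM).trans (mem_filter.1 ht).2)
    refine h3.trans ?_
    rw [hB]
    have hlp := rd_last_le hF (hT.abc s hs) hK p
    have hlq := rd_last_le hF (hT.abc s hs) hK q
    rw [← hup, ← huq]
    have h4 : (up * (rd K (num s p) {Fin.last K} : ℝ)) * (uq * (rd K (num s q) {Fin.last K} : ℝ)) ≤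
        (up * uq) * ((s.2.2 : ℝ) ^ e) ^ 2 := by
      calc (up * (rd K (num s p) {Fin.last K} : ℝ)) * (uq * (rd K (num s q) {Fin.last K} : ℝ))
          = (up * uq) * ((rd K (num s p) {Fin.last K} : ℝ) *
            (rd K (num s q) {Fin.last K} : ℝ)) := by ring
        _ ≤ (up * uq) * ((s.2.2 : ℝ) ^ e * (s.2.2 : ℝ) ^ e) := by gcongr
        _ = _ := by ring
    have h5 : ((up * (rd K (num s p) {Fin.last K} : ℝ)) *
        (uq * (rd K (num s q) {Fin.last K} : ℝ))) ^ ((1 : ℝ) / 2) ≤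
        (up * uq) ^ ((1 : ℝ) / 2) * (s.2.2 : ℝ) ^ e := by
      refine (Real.rpow_le_rpow (by positivity) h4 (by norm_num)).trans (le_of_eq ?_)
      rw [Real.mul_rpow (by positivity) (by positivity)]
      congr 1
      rw [← Real.rpow_natCast, ← Real.rpow_mul (by positivity)]
      norm_num
    calc D * (s.2.2 : ℝ) ^ e * ((up * (rd K (num s p) {Fin.last K} : ℝ)) *
          (uq * (rd K (num s q) {Fin.last K} : ℝ))) ^ ((1 : ℝ) / 2)
        ≤ D * (s.2.2 : ℝ) ^ e * ((up * uq) ^ ((1 : ℝ) / 2) * (s.2.2 : ℝ) ^ e) :=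
          mul_le_mul_of_nonneg_left h5 (by positivity)
      _ = D * ((s.2.2 : ℝ) ^ e * (s.2.2 : ℝ) ^ e) * (up * uq) ^ ((1 : ℝ) / 2) := by ring
      _ = D * (s.2.2 : ℝ) ^ (2 * e) * (up * uq) ^ ((1 : ℝ) / 2) := by
          rw [← Real.rpow_add hcR0]
          congr 3
          ring)
  calc (T.card : ℝ) ≤ Y ^ γ * B := hfib
    _ = _ := by rw [hB]; ring

end Pool.Agent.N745.T1
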