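import Mathlib
import Pool.Agent.N745.T1.Cel
import Pool.Agent.Y913.Zm.Fn

/-!
# Cells with three solid members
-/

set_option autoImplicit false

namespace Pool.Agent.N745.T1

open Finset Pool.Agent.H785R2.ABC Pool.Agent.H785R2.ABC.EC Pool.Agent.Y913.Nb

/-- **three solid members** -/
theorem pat_sss (n M : ℕ) (hM : 1 ≤ M) (η : ℝ) (hη : 0 < η) :
    ∃ L D : ℝ, 0 < L ∧ 0 < D ∧ ∀ T : Finset (ℕ × ℕ × ℕ), ∀ Y : ℝ, 1 ≤ Y →
      (∀ t ∈ T, IsABCTriple t.1 t.2.1 t.2.2) → (∀ t ∈ T, ∀ j, NB n (Y ^ (2 * M)) (num t j)) →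
      (∀ t ∈ T, Y ^ L ≤ (t.2.2 : ℝ)) → (T.card : ℝ) ≤ D * Y ^ η := by
  classical
  obtain ⟨L, D, hL, hD, h⟩ := Pool.Agent.Y913.Zm.nt_count n (η / (2 * M)) (by positivity)
  refine ⟨2 * M * L, D, by positivity, hD, ?_⟩
  intro T Y hY habc hnb hc
  have hY0 : (0 : ℝ) < Y := by linarith
  have hcard : (T.image fun t => (t.1, t.2.1)).card = T.card := by
    apply card_image_of_injOn
    intro t ht t' ht' htt
    simp only [Prod.mk.injEq] at htt
    have h1 := (habc t ht).2.2.2.1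
    have h2 := (habc t' ht').2.2.2.1
    exact Prod.ext htt.1 (Prod.ext htt.2 (by rw [← h1, ← h2, htt.1, htt.2]))
  have h1 := h (Y ^ (2 * M)) (one_le_pow₀ hY) (T.image fun t => (t.1, t.2.1)) (by
    intro x hx
    obtain ⟨t, ht, rfl⟩ := mem_image.1 hx
    obtain ⟨g1, g2, g3, g4, g5, -⟩ := habc t ht
    have n0 := hnb t ht 0
    have n1 := hnb t ht 1
    have n2 := hnb t ht 2
    simp only [num] at n0 n1 n2
    refine ⟨g1, g2, g5, n0, n1, ?_, ?_⟩
    · show NB n (Y ^ (2 * M)) (t.1 + t.2.1)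
      rw [g4]
      exact n2
    · show (Y ^ (2 * M)) ^ L ≤ ((t.1 + t.2.1 : ℕ) : ℝ)
      rw [g4]
      refine le_trans (le_of_eq ?_) (hc t ht)
      rw [← Real.rpow_natCast, ← Real.rpow_mul hY0.le]
      congr 1
      push_cast
      ring)
  rw [hcard] at h1
  refine h1.trans (le_of_eq ?_)
  congr 1
  rw [← Real.rpow_natCast, ← Real.rpow_mul hY0.le]
  congr 1
  push_cast
  have : (M : ℝ) ≠ 0 := by positivity
  field_simp

end Pool.Agent.N745.T1
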