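import Mathlib
import Pool.Agent.N745.T1.Levels
import Pool.Agent.N745.T1.Pat2
import Pool.Agent.N745.T1.Pat3
import Pool.Agent.N745.T1.Pat4
import Pool.Agent.H705R2.ABC.PolyPf

/-!
# The bound for one pattern of dusty and solid members
-/

set_option autoImplicit false

namespace Pool.Agent.N745.T1

open Finset Pool.Agent.H785R2.ABC Pool.Agent.H785R2.ABC.EC Pool.Agent.Y913
  Pool.Agent.Y913.Nb Pool.Agent.H705R2.ABC

/-- the radical of a triple is the product of the radicals of its members -/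
lemma rad_abc {t : ℕ × ℕ × ℕ} (h : IsABCTriple t.1 t.2.1 t.2.2) :
    rad (num t 0) * rad (num t 1) * rad (num t 2) = rad (t.1 * t.2.1 * t.2.2) := by
  obtain ⟨h1, h2, h3, h4, h5, h6, h7⟩ := h
  rw [PO.rad_mul_coprime (Nat.Coprime.mul_left h6 h7), PO.rad_mul_coprime h5]
  simp [num]

lemma rad_pos (n : ℕ) : 1 ≤ rad n := by
  unfold rad
  exact Nat.one_le_iff_ne_zero.2
    (prod_ne_zero_iff.2 fun p hp => (Nat.prime_of_mem_primeFactors hp).ne_zero)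

lemma prod_univ3 (g : Fin 3 → ℝ) {p q r : Fin 3} (hpq : p ≠ q) (hqr : q ≠ r) (hpr : p ≠ r) :
    g p * g q * g r = g 0 * g 1 * g 2 := by
  fin_cases p <;> fin_cases q <;> fin_cases r <;> first
    | exact absurd rfl hpq
    | exact absurd rfl hqr
    | exact absurd rfl hpr
    | (simp only [Fin.zero_eta, Fin.mk_one, Fin.reduceFinMk] <;> ring)

/-- the smallest of the three products of two of the radicals -/
lemma min_prod {Y : ℝ} (hY : 1 ≤ Y) (u : Fin 3 → ℝ) (hu : ∀ i, 1 ≤ u i)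
    (h : u 0 * u 1 * u 2 ≤ Y) : ∃ p q r : Fin 3, p ≠ q ∧ q ≠ r ∧ p ≠ r ∧
      u p * u q ≤ Y ^ ((2 : ℝ) / 3) := by
  by_contra hcon
  push Not at hcon
  have h1 := hcon 0 1 2 (by decide) (by decide) (by decide)
  have h2 := hcon 1 2 0 (by decide) (by decide) (by decide)
  have h3 := hcon 0 2 1 (by decide) (by decide) (by decide)
  have hY0 : (0 : ℝ) < Y := by linarith
  have h4 : (0 : ℝ) < Y ^ ((2 : ℝ) / 3) := by positivity
  have h5 : Y ^ ((2 : ℝ) / 3) * Y ^ ((2 : ℝ) / 3) * Y ^ ((2 : ℝ) / 3) = Y * Y := by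
    rw [← Real.rpow_add hY0, ← Real.rpow_add hY0]
    norm_num
    ring
  have h6 : Y * Y < (u 0 * u 1) * (u 1 * u 2) * (u 0 * u 2) := by
    rw [← h5]
    apply mul_lt_mul'' (mul_lt_mul'' h1 h2 h4.le h4.le) h3 (by positivity) h4.le
  have h7 : (u 0 * u 1) * (u 1 * u 2) * (u 0 * u 2) = (u 0 * u 1 * u 2) * (u 0 * u 1 * u 2) := by
    ring
  have h8 : (0 : ℝ) ≤ u 0 * u 1 * u 2 := by
    have := hu 0; have := hu 1; have := hu 2
    positivity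
  rw [h7] at h6
  have h9 : (u 0 * u 1 * u 2) * (u 0 * u 1 * u 2) ≤ Y * Y := mul_le_mul h h h8 hY0.le
  linarith

/-- **one pattern** -/
theorem one_pattern (hF : Basics) (hA4 : StmtA4) (hJ : StmtJ) (η : ℝ) (hη : 0 < η) (M : ℕ)
    (hM : 1 ≤ M) (γ : ℝ) (hγ : 0 < γ) (hγ1 : γ ≤ 1) (M' : ℕ) (γ' : ℝ) (w t0 : ℕ)
    (hs : Step η M γ M' γ' w t0) : ∃ L : ℝ, 0 < L ∧ ∀ (K : ℕ) (lam e : ℝ), 0 < lam → 0 < e →
      1 ≤ e * ((K : ℝ) + 1) → ∃ D : ℝ, 0 < D ∧ ∀ T0 : Finset (ℕ × ℕ × ℕ), Cell K T0 →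
      ∀ s ∈ T0, ∀ Y : ℝ, 1 ≤ Y → (s.2.2 : ℝ) ^ lam ≤ Y →
      (∀ t ∈ T0, (rad (t.1 * t.2.1 * t.2.2) : ℝ) ≤ Y) → (∀ t ∈ T0, Y ^ L ≤ (t.2.2 : ℝ)) →
      ∀ T : Finset (ℕ × ℕ × ℕ), T ⊆ T0 → ∀ S : Finset (Fin 3),
      (∀ t ∈ T, (∀ i ∈ S, Dusty Y γ' M' (num t i)) ∧ (∀ i ∉ S, ¬ Dusty Y γ M (num t i))) →
      (T.card : ℝ) ≤ D * (s.2.2 : ℝ) ^ (2 * e) * Y ^ (1 / 3 + η) := by
  classical
  obtain ⟨L, D4, hL, hD4, h4⟩ := pat_sss (nb γ) M hM η hη
  refine ⟨L, hL, ?_⟩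
  intro K lam e hlam he hK
  obtain ⟨D1, hD1, h1⟩ := pat_one hF hA4 (nb γ) w M M' K γ' lam e hs.hγ' hlam he hs.hM' hs.hKK1
    hs.hw
  obtain ⟨D2, hD2, h2⟩ := pat_two hF (nb γ) w M M' K γ' lam e hs.hγ' hlam he hs.hM' hs.hKK2 hs.hw
  obtain ⟨D3, hD3, h3⟩ := pat_est hF hA4 hJ t0 M' K γ' e hs.hγ' he hs.ht0 hs.htM hK
  refine ⟨D1 + D2 + D3 + D4, by positivity, ?_⟩
  intro T0 hT s hsT Y hY hcY hradY hYL T hTT S hpat
  have hY0 : (0 : ℝ) < Y := by linarith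
  have hc1 : 1 ≤ s.2.2 := (hT.abc s hsT).2.2.1
  have hcR : (1 : ℝ) ≤ s.2.2 := by exact_mod_cast hc1
  have hcR0 : (0 : ℝ) < s.2.2 := by linarith
  have hce : (1 : ℝ) ≤ (s.2.2 : ℝ) ^ (2 * e) := Real.one_le_rpow hcR (by positivity)
  have hce' : (s.2.2 : ℝ) ^ e ≤ (s.2.2 : ℝ) ^ (2 * e) :=
    Real.rpow_le_rpow_of_exponent_le hcR (by linarith)
  -- the radicals
  have hradj : ∀ t ∈ T0, ∀ j, (rad (num t j) : ℝ) ≤ Y := by
    intro t ht j
    refine le_trans ?_ (hradY t ht)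
    rw [← rad_abc (hT.abc t ht)]
    have g0 := rad_pos (num t 0)
    have g1 := rad_pos (num t 1)
    have g2 := rad_pos (num t 2)
    have : rad (num t j) ≤ rad (num t 0) * rad (num t 1) * rad (num t 2) := by
      fin_cases j
      · calc rad (num t 0) = rad (num t 0) * 1 * 1 := by ring
          _ ≤ _ := Nat.mul_le_mul (Nat.mul_le_mul le_rfl g1) g2
      · calc rad (num t 1) = 1 * rad (num t 1) * 1 := by ring
          _ ≤ _ := Nat.mul_le_mul (Nat.mul_le_mul g0 le_rfl) g2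
      · calc rad (num t 2) = 1 * 1 * rad (num t 2) := by ring
          _ ≤ _ := Nat.mul_le_mul (Nat.mul_le_mul g0 g1) le_rfl
    exact_mod_cast this
  set u : Fin 3 → ℝ := fun j => (rd K (num s j) univ : ℝ) with hu
  have hu1 : ∀ j, 1 ≤ u j := fun j => by
    show (1 : ℝ) ≤ (rd K (num s j) univ : ℝ)
    exact_mod_cast hF.rd_pos _ _ _
  have huY : ∀ j, u j ≤ Y := fun j => by
    rw [hu]
    show (rd K (num s j) univ : ℝ) ≤ Y
    rw [hF.rd_univ]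
    exact hradj s hsT j
  have hprod : u 0 * u 1 * u 2 ≤ Y := by
    have h5 := hradY s hsT
    rw [← rad_abc (hT.abc s hsT)] at h5
    rw [hu]
    show (rd K (num s 0) univ : ℝ) * (rd K (num s 1) univ : ℝ) * (rd K (num s 2) univ : ℝ) ≤ Y
    rw [hF.rd_univ, hF.rd_univ, hF.rd_univ]
    exact_mod_cast h5
  -- solid members
  have hsolid : ∀ t ∈ T, ∀ i ∉ S, NB (nb γ) (Y ^ (2 * M)) (num t i) := by
    intro t ht i hi
    have hm := num_pos (hT.abc t (hTT ht)) i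
    exact nb_of_not_dusty hY hγ hγ1 hM (Nat.le_ceil _) hm (hradj t (hTT ht) i)
      ((hpat t ht).2 i hi)
  have hsm1 : γ' + 2 * γ' * ((nb γ : ℕ) : ℝ) ^ 2 ≤ η := by
    refine le_trans ?_ hs.small
    have h6 : ((nb γ : ℕ) : ℝ) ^ 2 ≤ ((2 * nb γ : ℕ) : ℝ) ^ 2 := by
      apply pow_le_pow_left₀ (Nat.cast_nonneg _)
      exact_mod_cast (by omega : nb γ ≤ 2 * nb γ)
    have h7 := mul_le_mul_of_nonneg_left h6 (by linarith [hs.hγ'] : (0 : ℝ) ≤ 2 * γ')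
    linarith
  have hsm0 : γ' ≤ η := by
    refine le_trans ?_ hsm1
    have := hs.hγ'
    have h6 : (0 : ℝ) ≤ 2 * γ' * ((nb γ : ℕ) : ℝ) ^ 2 := by positivity
    linarith
  have hYη : Y ^ η ≤ Y ^ (1 / 3 + η) := Real.rpow_le_rpow_of_exponent_le hY (by linarith)
  have hY3 : Y ^ ((1 : ℝ) / 3) * Y ^ η = Y ^ (1 / 3 + η) := (Real.rpow_add hY0 _ _).symm
  set G : ℝ := (s.2.2 : ℝ) ^ (2 * e) * Y ^ (1 / 3 + η) with hG
  have hG0 : 0 ≤ G := by rw [hG]; positivity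
  -- the claims
  have claimA : ∀ p q r : Fin 3, p ≠ q → q ≠ r → p ≠ r → r ∈ S → u p * u q ≤ Y ^ ((2 : ℝ) / 3) →
      (T.card : ℝ) ≤ D3 * G := by
    intro p q r hpq hqr hpr hr hle
    have h5 := h3 T0 hT s hsT Y hY huY p q r hpq hqr hpr T hTT (fun t ht => (hpat t ht).1 r hr)
    refine h5.trans ?_
    have h6 : (u p * u q) ^ ((1 : ℝ) / 2) ≤ Y ^ ((1 : ℝ) / 3) := by
      have h7 := hu1 p
      have h8 := hu1 q
      calc (u p * u q) ^ ((1 : ℝ) / 2) ≤ (Y ^ ((2 : ℝ) / 3)) ^ ((1 : ℝ) / 2) :=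
            Real.rpow_le_rpow (by positivity) hle (by norm_num)
        _ = Y ^ ((1 : ℝ) / 3) := by
            rw [← Real.rpow_mul hY0.le]
            norm_num
    have h9 : Y ^ γ' ≤ Y ^ η := Real.rpow_le_rpow_of_exponent_le hY hsm0
    calc D3 * (s.2.2 : ℝ) ^ (2 * e) * Y ^ γ' * (u p * u q) ^ ((1 : ℝ) / 2)
        ≤ D3 * (s.2.2 : ℝ) ^ (2 * e) * Y ^ η * Y ^ ((1 : ℝ) / 3) := by gcongr
      _ = D3 * ((s.2.2 : ℝ) ^ (2 * e) * (Y ^ ((1 : ℝ) / 3) * Y ^ η)) := by ring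
      _ = D3 * G := by rw [hY3]
  have claimB : ∀ p q r : Fin 3, p ≠ q → q ≠ r → p ≠ r → r ∈ S → p ∉ S →
      u q ≤ Y ^ ((1 : ℝ) / 3) → (T.card : ℝ) ≤ D1 * G := by
    intro p q r hpq hqr hpr hr hp hle
    have h5 := h1 T0 hT s hsT Y hY hcY p q r hpq hqr hpr T hTT
      (fun t ht => (hpat t ht).1 r hr) (fun t ht => hsolid t ht p hp)
    refine h5.trans ?_
    have h9 : Y ^ (γ' + 2 * γ' * ((nb γ : ℕ) : ℝ) ^ 2) ≤ Y ^ η :=
      Real.rpow_le_rpow_of_exponent_le hY hsm1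
    calc D1 * (s.2.2 : ℝ) ^ e * Y ^ (γ' + 2 * γ' * ((nb γ : ℕ) : ℝ) ^ 2) * u q
        ≤ D1 * (s.2.2 : ℝ) ^ (2 * e) * Y ^ η * Y ^ ((1 : ℝ) / 3) := by
          have := hu1 q
          gcongr
      _ = D1 * ((s.2.2 : ℝ) ^ (2 * e) * (Y ^ ((1 : ℝ) / 3) * Y ^ η)) := by ring
      _ = D1 * G := by rw [hY3]
  have claimC : ∀ p q r : Fin 3, p ≠ q → q ≠ r → p ≠ r → r ∈ S → p ∉ S → q ∉ S →
      (T.card : ℝ) ≤ D2 * G := by
    intro p q r hpq hqr hpr hr hp hq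
    have h5 := h2 T0 hT s hsT Y hY hcY p q r hpq hqr hpr T hTT
      (fun t ht => (hpat t ht).1 r hr) (fun t ht => hsolid t ht p hp)
      (fun t ht => hsolid t ht q hq)
    refine h5.trans ?_
    have h9 : Y ^ (γ' + 2 * γ' * ((2 * nb γ : ℕ) : ℝ) ^ 2) ≤ Y ^ (1 / 3 + η) :=
      (Real.rpow_le_rpow_of_exponent_le hY hs.small).trans hYη
    calc D2 * (s.2.2 : ℝ) ^ e * Y ^ (γ' + 2 * γ' * ((2 * nb γ : ℕ) : ℝ) ^ 2)
        ≤ D2 * (s.2.2 : ℝ) ^ (2 * e) * Y ^ (1 / 3 + η) := by gcongr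
      _ = D2 * G := by rw [hG]; ring
  have claimD : S = ∅ → (T.card : ℝ) ≤ D4 * G := by
    intro hS
    have h5 := h4 T Y hY (fun t ht => hT.abc t (hTT ht))
      (fun t ht j => hsolid t ht j (by rw [hS]; exact notMem_empty j))
      (fun t ht => hYL t (hTT ht))
    refine h5.trans ?_
    apply mul_le_mul_of_nonneg_left _ hD4.le
    calc Y ^ η ≤ Y ^ (1 / 3 + η) := hYη
      _ = 1 * Y ^ (1 / 3 + η) := (one_mul _).symm
      _ ≤ G := by rw [hG]; gcongr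
  -- two dusty members `q`, `r`, one solid member `p`
  have claimE : ∀ p q r : Fin 3, p ≠ q → q ≠ r → p ≠ r → r ∈ S → q ∈ S → p ∉ S →
      (T.card : ℝ) ≤ (D1 + D3) * G := by
    intro p q r hpq hqr hpr hr hq hp
    rcases le_or_gt (u p * u q) (Y ^ ((2 : ℝ) / 3)) with hle | hlt
    · refine (claimA p q r hpq hqr hpr hr hle).trans ?_
      exact mul_le_mul_of_nonneg_right (by linarith) hG0
    · have hle : u r ≤ Y ^ ((1 : ℝ) / 3) := by
        by_contra hgt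
        rw [not_le] at hgt
        have h5 : Y ^ ((2 : ℝ) / 3) * Y ^ ((1 : ℝ) / 3) < (u p * u q) * u r :=
          mul_lt_mul'' hlt hgt (by positivity) (by positivity)
        rw [← Real.rpow_add hY0, prod_univ3 u hpq hqr hpr] at h5
        norm_num at h5
        linarith
      refine (claimB p r q hpr (Ne.symm hqr) hpq hq hp hle).trans ?_
      exact mul_le_mul_of_nonneg_right (by linarith) hG0
  have hfin : ∀ D' : ℝ, D' ≤ D1 + D2 + D3 + D4 → (T.card : ℝ) ≤ D' * G →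
      (T.card : ℝ) ≤ (D1 + D2 + D3 + D4) * (s.2.2 : ℝ) ^ (2 * e) * Y ^ (1 / 3 + η) := by
    intro D' h5 h6
    rw [mul_assoc]
    exact h6.trans (mul_le_mul_of_nonneg_right h5 hG0)
  by_cases m0 : (0 : Fin 3) ∈ S <;> by_cases m1 : (1 : Fin 3) ∈ S <;>
    by_cases m2 : (2 : Fin 3) ∈ S
  · -- three dusty members
    obtain ⟨p, q, r, hpq, hqr, hpr, hle⟩ := min_prod hY u hu1 hprod
    have hr : r ∈ S := by fin_cases r <;> assumption
    exact hfin D3 (by linarith) (claimA p q r hpq hqr hpr hr hle)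
  · exact hfin _ (by linarith) (claimE 2 1 0 (by decide) (by decide) (by decide) m0 m1 m2)
  · exact hfin _ (by linarith) (claimE 1 0 2 (by decide) (by decide) (by decide) m2 m0 m1)
  · exact hfin _ (by linarith) (claimC 1 2 0 (by decide) (by decide) (by decide) m0 m1 m2)
  · exact hfin _ (by linarith) (claimE 0 1 2 (by decide) (by decide) (by decide) m2 m1 m0)
  · exact hfin _ (by linarith) (claimC 0 2 1 (by decide) (by decide) (by decide) m1 m0 m2)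
  · exact hfin _ (by linarith) (claimC 0 1 2 (by decide) (by decide) (by decide) m2 m0 m1)
  · refine hfin D4 (by linarith) (claimD ?_)
    ext i
    fin_cases i <;> simp [m0, m1, m2]

end Pool.Agent.N745.T1
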