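import Mathlib
import Pool.Agent.N745.T1.Comb
import Pool.Agent.H705R2.ABC.Main

/-!
# The exponent `1/3` for abc-triples with a very small radical
-/

set_option autoImplicit false

namespace Pool.Agent.N745.T1

open Finset Pool.Agent.H785R2.ABC Pool.Agent.H785R2.ABC.EC Pool.Agent.H705R2.ABC

/-- the bound for all cells -/
theorem cells_third (hF : Basics) (hA4 : StmtA4) (hJ : StmtJ) (η : ℝ) (hη : 0 < η) :
    ∃ lam0 : ℝ, 0 < lam0 ∧ lam0 ≤ 1 ∧ ∀ lam : ℝ, 0 < lam → lam ≤ lam0 →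
      StmtCells lam ((1 / 3 + η) * lam) := by
  classical
  obtain ⟨M, γ, w, t0, hlev⟩ := exists_levels η hη
  have hpat := fun j : Fin 4 => one_pattern hF hA4 hJ η hη (M j) (hlev j).1.1 (γ j)
    (hlev j).1.2.1 (hlev j).1.2.2 (M (j + 1)) (γ (j + 1)) (w j) (t0 j) (hlev j).2
  choose Lf hLf hpat using hpat
  set L : ℝ := ∑ j, Lf j with hL
  have hL0 : 0 < L := sum_pos (fun j _ => hLf j) univ_nonempty
  have hLle : ∀ j, Lf j ≤ L := fun j => single_le_sum (fun i _ => (hLf i).le) (mem_univ j)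
  refine ⟨min 1 (1 / (2 * L)), lt_min one_pos (by positivity), min_le_left _ _, ?_⟩
  intro lam hlam hlam0 ε hε
  have hlam1 : lam ≤ 1 := hlam0.trans (min_le_left _ _)
  have hlamL : lam * L ≤ 1 / 2 := by
    have h1 : lam ≤ 1 / (2 * L) := hlam0.trans (min_le_right _ _)
    rw [le_div_iff₀ (by positivity)] at h1
    linarith
  obtain ⟨e, he⟩ : ∃ e : ℝ, e = ε / 2 := ⟨_, rfl⟩
  have he0 : 0 < e := by rw [he]; positivity
  obtain ⟨K, hK⟩ := exists_nat_ge (1 / e)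
  have hK1 : 1 ≤ e * ((K : ℝ) + 1) := by
    rw [div_le_iff₀ he0] at hK
    nlinarith
  have hD := fun j => hpat j K lam e hlam he0 hK1
  choose Df hDf hbd using hD
  obtain ⟨Ds, hDs, hsm⟩ := card_small hF K (8 ^ (K + 1))
  set k : ℝ := (2 : ℝ) ^ (K + 1) with hk
  have hk1 : 1 ≤ k := one_le_pow₀ (by norm_num)
  set DD : ℝ := ∑ j, Df j with hDD
  have hDD0 : 0 < DD := sum_pos (fun j _ => hDf j) univ_nonempty
  have hDle : ∀ j, Df j ≤ DD := fun j => single_le_sum (fun i _ => (hDf i).le) (mem_univ j)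
  refine ⟨K, Ds + 32 * DD * k ^ ((1 / 3 + η) * lam), by positivity, ?_⟩
  intro T0 hT hrad s hs
  have hc1 : 1 ≤ s.2.2 := (hT.abc s hs).2.2.1
  have hcR : (1 : ℝ) ≤ s.2.2 := by exact_mod_cast hc1
  have hcR0 : (0 : ℝ) < s.2.2 := by linarith
  have hce : (1 : ℝ) ≤ (s.2.2 : ℝ) ^ ((1 / 3 + η) * lam + ε) :=
    Real.one_le_rpow hcR (by positivity)
  rcases le_or_gt s.2.2 (8 ^ (K + 1)) with hsc | hsc
  · have h1 := hsm T0 hT s hs hsc
    have h2 : Ds ≤ Ds + 32 * DD * k ^ ((1 / 3 + η) * lam) := le_add_of_nonneg_right (by positivity)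
    calc (T0.card : ℝ) ≤ Ds + 32 * DD * k ^ ((1 / 3 + η) * lam) := h1.trans h2
      _ = (Ds + 32 * DD * k ^ ((1 / 3 + η) * lam)) * 1 := (mul_one _).symm
      _ ≤ _ := mul_le_mul_of_nonneg_left hce (by positivity)
  set Y : ℝ := (k * (s.2.2 : ℝ)) ^ lam with hY
  have hkc : (1 : ℝ) ≤ k * (s.2.2 : ℝ) := one_le_mul_of_one_le_of_one_le hk1 hcR
  have hY1 : 1 ≤ Y := Real.one_le_rpow hkc hlam.le
  have hY0 : 0 < Y := by linarith
  have hcY : (s.2.2 : ℝ) ^ lam ≤ Y := by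
    apply Real.rpow_le_rpow hcR0.le _ hlam.le
    nlinarith
  have hcomp : ∀ t ∈ T0, (t.2.2 : ℝ) ≤ k * (s.2.2 : ℝ) ∧ (s.2.2 : ℝ) ≤ k * (t.2.2 : ℝ) := by
    intro t ht
    have h1 := num_cmp hF hT ht hs 2
    have h2 := num_cmp hF hT hs ht 2
    simp only [num] at h1 h2
    constructor
    · rw [hk]
      exact_mod_cast h1
    · rw [hk]
      exact_mod_cast h2
  have hradY : ∀ t ∈ T0, (rad (t.1 * t.2.1 * t.2.2) : ℝ) ≤ Y := by
    intro t ht
    exact (hrad t ht).trans (Real.rpow_le_rpow (Nat.cast_nonneg _) (hcomp t ht).1 hlam.le)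
  have hscR : (8 : ℝ) ^ (K + 1) ≤ (s.2.2 : ℝ) := by exact_mod_cast hsc.le
  have hk3 : k * k * k = (8 : ℝ) ^ (K + 1) := by
    rw [hk, ← mul_pow, ← mul_pow]
    norm_num
  have hYL : ∀ t ∈ T0, Y ^ L ≤ (t.2.2 : ℝ) := by
    intro t ht
    have ht1 : (1 : ℝ) ≤ (t.2.2 : ℝ) := by exact_mod_cast (hT.abc t ht).2.2.1
    have h1 : k * k ≤ (t.2.2 : ℝ) := by
      have h2 := (hcomp t ht).2
      have h3 : k * k * k ≤ k * (t.2.2 : ℝ) := by rw [hk3]; linarith
      have h4 : (k * k) * k ≤ (t.2.2 : ℝ) * k := by linarith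
      exact le_of_mul_le_mul_right h4 (by linarith)
    calc Y ^ L = (k * (s.2.2 : ℝ)) ^ (lam * L) := by rw [hY, ← Real.rpow_mul (by positivity)]
      _ ≤ (k * (s.2.2 : ℝ)) ^ ((1 : ℝ) / 2) := Real.rpow_le_rpow_of_exponent_le hkc hlamL
      _ ≤ ((t.2.2 : ℝ) * (t.2.2 : ℝ)) ^ ((1 : ℝ) / 2) := by
          apply Real.rpow_le_rpow (by positivity) _ (by norm_num)
          calc k * (s.2.2 : ℝ) ≤ k * (k * (t.2.2 : ℝ)) :=
                mul_le_mul_of_nonneg_left (hcomp t ht).2 (by linarith)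
            _ = (k * k) * (t.2.2 : ℝ) := by ring
            _ ≤ (t.2.2 : ℝ) * (t.2.2 : ℝ) := mul_le_mul_of_nonneg_right h1 (by linarith)
      _ = (t.2.2 : ℝ) := by
          rw [← sq, ← Real.rpow_natCast, ← Real.rpow_mul (by linarith)]
          norm_num
  -- the pieces
  let piece : Fin 4 × Finset (Fin 3) → Finset (ℕ × ℕ × ℕ) := fun x => T0.filter fun t =>
    (∀ i ∈ x.2, Dusty Y (γ (x.1 + 1)) (M (x.1 + 1)) (num t i)) ∧
      (∀ i ∉ x.2, ¬ Dusty Y (γ x.1) (M x.1) (num t i))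
  have hcov : T0 ⊆ univ.biUnion piece := by
    intro t ht
    obtain ⟨j, hj⟩ := exists_good hY1 hlev (fun i => num t i)
    rw [mem_biUnion]
    refine ⟨(j, univ.filter fun i => Dusty Y (γ (j + 1)) (M (j + 1)) (num t i)), mem_univ _, ?_⟩
    rw [mem_filter]
    refine ⟨ht, ?_, ?_⟩
    · intro i hi
      exact (mem_filter.1 hi).2
    · intro i hi
      have h1 : ¬ Dusty Y (γ (j + 1)) (M (j + 1)) (num t i) := fun h2 =>
        hi (mem_filter.2 ⟨mem_univ _, h2⟩)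
      exact (hj i).resolve_left h1
  set G : ℝ := (s.2.2 : ℝ) ^ (2 * e) * Y ^ (1 / 3 + η) with hG
  have hG0 : 0 ≤ G := by rw [hG]; positivity
  have hpiece : ∀ x, ((piece x).card : ℝ) ≤ DD * G := by
    intro x
    have h1 := hbd x.1 T0 hT s hs Y hY1 hcY hradY (fun t ht =>
      (Real.rpow_le_rpow_of_exponent_le hY1 (hLle x.1)).trans (hYL t ht)) (piece x)
      (filter_subset _ _) x.2 (fun t ht => (mem_filter.1 ht).2)
    rw [mul_assoc] at h1
    exact h1.trans (mul_le_mul_of_nonneg_right (hDle _) hG0)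
  have hsum : (T0.card : ℝ) ≤ 32 * DD * G := by
    have h1 : (T0.card : ℝ) ≤ ∑ x, ((piece x).card : ℝ) := by
      have h2 := (card_le_card hcov).trans card_biUnion_le
      exact_mod_cast h2
    calc (T0.card : ℝ) ≤ ∑ x, ((piece x).card : ℝ) := h1
      _ ≤ ∑ _x : Fin 4 × Finset (Fin 3), DD * G := sum_le_sum fun x _ => hpiece x
      _ = 32 * DD * G := by
        rw [sum_const, card_univ, Fintype.card_prod, Fintype.card_finset, Fintype.card_fin,
          Fintype.card_fin, nsmul_eq_mul]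
        norm_num
        ring
  have hYe : Y ^ (1 / 3 + η) = k ^ ((1 / 3 + η) * lam) * (s.2.2 : ℝ) ^ ((1 / 3 + η) * lam) := by
    rw [hY, ← Real.rpow_mul (by positivity), Real.mul_rpow (by positivity) hcR0.le,
      mul_comm lam]
  calc (T0.card : ℝ) ≤ 32 * DD * G := hsum
    _ = 32 * DD * k ^ ((1 / 3 + η) * lam) *
        ((s.2.2 : ℝ) ^ ((1 / 3 + η) * lam) * (s.2.2 : ℝ) ^ (2 * e)) := by
        rw [hG, hYe]; ring
    _ = 32 * DD * k ^ ((1 / 3 + η) * lam) * (s.2.2 : ℝ) ^ ((1 / 3 + η) * lam + ε) := by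
        rw [← Real.rpow_add hcR0]
        congr 3
        rw [he]
        ring
    _ ≤ _ := by
        apply mul_le_mul_of_nonneg_right _ (by positivity)
        exact le_add_of_nonneg_left hDs.le

/-- for small `lam` the number of abc-triples with `c ≤ X` and `rad (abc) ≤ c ^ lam` is
`O (X ^ ((1/3 + η) lam + ε))` -/
theorem count_third (η : ℝ) (hη : 0 < η) : ∃ lam0 : ℝ, 0 < lam0 ∧ lam0 ≤ 1 ∧
    ∀ lam : ℝ, 0 < lam → lam ≤ lam0 → StmtCount lam ((1 / 3 + η) * lam) := by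
  obtain ⟨lam0, h0, h1, h⟩ := cells_third basics stmtA4'
    (stmtJ_of (stmtPwr_of (stmtTwo_of stmtD') stmtFac)) η hη
  exact ⟨lam0, h0, h1, fun lam hl hl' =>
    count_of basics lam ((1 / 3 + η) * lam) (by positivity) (h lam hl hl')⟩

end Pool.Agent.N745.T1
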